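import Pool.Agent.K4H18.BEI.Ideals

set_option autoImplicit false

namespace Pool.Agent.K4H18.BEI

open RingTheory.Sequence

universe u

section

variable (K : Type u) [Field K] {V : Type}

lemma smul_mk' (I : Ideal (MvPolynomial (V ⊕ V) K)) (c x : MvPolynomial (V ⊕ V) K) :
    c • (Ideal.Quotient.mk I x) = Ideal.Quotient.mk I (c * x) := rfl

/-- Upper bound from two common neighbours of a set `Z` meeting all edges. -/
theorem upper_a [Finite V] (H : SimpleGraph V) (Z : Set V) (a b : V) (hab : a ≠ b) (ha : a ∉ Z)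
    (hb : b ∉ Z) (hH : ∀ i j, H.Adj i j → i ∈ Z ∨ j ∈ Z) (hz : ∀ z ∈ Z, H.Adj z a ∧ H.Adj z b)
    {F : Type} [Fintype F] (e : Fin (0 + 1) ⊕ F → V) (he : ∀ v, v ∈ Z ↔ v ∉ Set.range e)
    (rs : List (MvPolynomial (V ⊕ V) K)) (hmem : ∀ r ∈ rs, r ∈ irr K V)
    (hreg : IsWeaklyRegular (MvPolynomial (V ⊕ V) K ⧸ JJ K H) rs) :
    rs.length ≤ 2 + 2 * Fintype.card F := by
  have hJZ : JJ K H ≤ ZI K Z := JJ_le K fun i j hij => mm_mem_ZI K (hH i j hij)
  have h1 : (rs.length : WithBot ℕ∞) ≤ ringKrullDim (MvPolynomial (V ⊕ V) K ⧸ ZI K Z) := by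
    apply length_le rs hmem hreg (Ideal.Quotient.mk (JJ K H) (mm K a b))
    · intro c hc
      rw [smul_mk', Ideal.Quotient.eq_zero_iff_mem] at hc
      have h2 : c * mm K a b ∈ ZI K Z := hJZ hc
      apply ZI_le_irr K Z
      rw [mem_ZI_iff] at h2 ⊢
      rw [map_mul, rho_mm K ha hb] at h2
      exact (mul_eq_zero.1 h2).resolve_right (mm_ne_zero K hab)
    · intro c hc
      rw [smul_mk', Ideal.Quotient.eq_zero_iff_mem]
      exact ZI_mul_mm K hz hc
  have h2 : cliqueIdeal K e = ZI K Z := by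
    rw [clique_eq K e Z he (⊥ : SimpleGraph V)]
    · apply le_antisymm
      · apply sup_le le_rfl
        apply JJ_le
        intro i j hij
        exact absurd hij (by simp)
      · exact le_sup_left
    · intro i j hij
      exact absurd hij (by simp)
    · intro k l hkl
      exact absurd (Subsingleton.elim (α := Fin 1) k l) hkl
  rw [← h2] at h1
  have h3 := h1.trans (dim_le K e)
  have h4 : ((rs.length : ℕ) : WithBot ℕ∞) ≤ ((0 + 2 + 2 * Fintype.card F : ℕ) : WithBot ℕ∞) := h3
  have h5 : rs.length ≤ 0 + 2 + 2 * Fintype.card F := by exact_mod_cast h4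
  omega

/-- Killing the `y` variables. -/
noncomputable def kap : MvPolynomial (V ⊕ V) K →ₐ[K] MvPolynomial (V ⊕ V) K :=
  MvPolynomial.aeval (Sum.elim (fun v => MvPolynomial.X (Sum.inl v)) (fun _ => 0))

lemma kap_const (p : MvPolynomial (V ⊕ V) K) :
    MvPolynomial.constantCoeff (kap K p) = MvPolynomial.constantCoeff p := by
  have h : (MvPolynomial.constantCoeff (σ := V ⊕ V) (R := K)).comp (kap K).toRingHom =
      MvPolynomial.constantCoeff := by
    apply MvPolynomial.ringHom_ext
    · intro r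
      simp [kap]
    · rintro (v | v) <;> simp [kap]
  exact congrArg (fun g : MvPolynomial (V ⊕ V) K →+* K => g p) h

lemma kap_JJ {H : SimpleGraph V} {p : MvPolynomial (V ⊕ V) K} (hp : p ∈ JJ K H) :
    kap K p = 0 := by
  have h : JJ K H ≤ RingHom.ker (kap K (V := V)).toRingHom := by
    apply JJ_le
    intro i j _
    change kap K (mm K i j) = 0
    simp [kap, mm]
  exact h hp

/-- Upper bound for graphs with a dominating vertex. -/
theorem upper_b [Finite V] (H : SimpleGraph V) (v : V) (hv : ∀ w, w ≠ v → H.Adj v w)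
    {n : ℕ} {F : Type} [Fintype F] [IsEmpty F] (e : Fin (n + 1) ⊕ F → V)
    (he : Function.Bijective e)
    (rs : List (MvPolynomial (V ⊕ V) K)) (hmem : ∀ r ∈ rs, r ∈ irr K V)
    (hreg : IsWeaklyRegular (MvPolynomial (V ⊕ V) K ⧸ JJ K H) rs) :
    rs.length ≤ n + 2 := by
  have h1 : (rs.length : WithBot ℕ∞) ≤ ringKrullDim (MvPolynomial (V ⊕ V) K ⧸
      JJ K (⊤ : SimpleGraph V)) := by
    apply length_le rs hmem hreg (Ideal.Quotient.mk (JJ K H) (MvPolynomial.X (Sum.inl v)))
    · intro c hc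
      rw [smul_mk', Ideal.Quotient.eq_zero_iff_mem] at hc
      have h2 := kap_JJ K hc
      rw [map_mul] at h2
      have h3 : kap K (MvPolynomial.X (Sum.inl v) : MvPolynomial (V ⊕ V) K) ≠ 0 := by
        simp [kap]
      have h4 := (mul_eq_zero.1 h2).resolve_right h3
      rw [mem_irr_iff, ← kap_const, h4, map_zero]
    · intro c hc
      rw [smul_mk', Ideal.Quotient.eq_zero_iff_mem]
      unfold JJ at hc
      induction hc using Submodule.span_induction with
      | mem x hx =>
        obtain ⟨i, j, hij, rfl⟩ := hx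
        change mm K i j * _ ∈ _
        have hij' : i ≠ j := hij
        by_cases hi : i = v
        · subst hi
          exact Ideal.mul_mem_right _ _ (mm_mem K (hv j hij'.symm))
        · by_cases hj : j = v
          · subst hj
            exact Ideal.mul_mem_right _ _ (mm_mem K (hv i hij').symm)
          · rw [mul_comm]
            exact (mul_mm K (hv i hi) (hv j hj)).1
      | zero => rw [zero_mul]; exact Ideal.zero_mem _
      | add x y _ _ hx hy => rw [add_mul]; exact Ideal.add_mem _ hx hy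
      | smul d x _ hx =>
        rw [smul_eq_mul, mul_assoc]
        exact Ideal.mul_mem_left _ _ hx
  have h2 : cliqueIdeal K e = JJ K (⊤ : SimpleGraph V) := by
    rw [clique_eq K e ∅ _ (⊤ : SimpleGraph V)]
    · apply le_antisymm
      · apply sup_le _ le_rfl
        apply ZI_le
        intro z hz
        exact absurd hz (by simp)
      · exact le_sup_right
    · intro i j _
      right; right
      obtain ⟨k | k, hk⟩ := he.2 i
      · obtain ⟨l | l, hl⟩ := he.2 j
        · exact ⟨⟨k, hk⟩, ⟨l, hl⟩⟩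
        · exact isEmptyElim l
      · exact isEmptyElim k
    · intro k l hkl h
      exact hkl (Sum.inl_injective (he.1 h))
    · intro w
      simp only [Set.mem_empty_iff_false, false_iff, not_not]
      exact he.2 w
  rw [← h2] at h1
  have h3 := h1.trans (dim_le K e)
  have h4 : ((rs.length : ℕ) : WithBot ℕ∞) ≤ ((n + 2 + 2 * Fintype.card F : ℕ) : WithBot ℕ∞) := h3
  have h5 : rs.length ≤ n + 2 + 2 * Fintype.card F := by exact_mod_cast h4
  rw [Fintype.card_eq_zero] at h5
  omega

/-- Vanishing for the clique ideals. -/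
theorem PP_clique [Finite V] {n : ℕ} {F : Type} [Fintype F] (e : Fin (n + 1) ⊕ F → V)
    (he : Function.Injective e) (Z : Set V) (hZ : ∀ v, v ∈ Z ↔ v ∉ Set.range e)
    (H : SimpleGraph V)
    (h1 : ∀ i j, H.Adj i j → i ∈ Z ∨ j ∈ Z ∨
      ((∃ k, e (Sum.inl k) = i) ∧ ∃ k, e (Sum.inl k) = j))
    (h2 : ∀ k l : Fin (n + 1), k ≠ l → H.Adj (e (Sum.inl k)) (e (Sum.inl l))) :
    PP (irr K V) (MvPolynomial (V ⊕ V) K ⧸ (ZI K Z ⊔ JJ K H)) (n + 2 + 2 * Fintype.card F) := by
  rw [← clique_eq K e Z hZ H h1 h2]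
  obtain ⟨rs, h3, h4, h5⟩ := exists_weaklyRegular K e he
  rw [← h3]
  apply PP_of_weaklyRegular (irr K V) _ rs h4 h5
  apply smul_top_ne_top
  rw [clique_eq K e Z hZ H h1 h2]
  exact sup_le (ZI_le_irr K Z) (JJ_le_irr K H)

end

end Pool.Agent.K4H18.BEI
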