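import Mathlib

/-!
The quotient of a polynomial ring in the variables `x_v, y_v` by the ideal generated by all
variables outside `C ∪ F` and the 2-minors of the matrix with columns in a clique `C` is a finite
free module over a polynomial ring.
-/

set_option autoImplicit false

namespace Pool.Agent.K4H18.BEI

open RingTheory.Sequence Pointwise

section Variables

variable {K : Type*} [Field K] {τ : Type*}

/-- Distinct variables form a weakly regular sequence. -/
lemma isWeaklyRegular_X (l : List τ) (hl : l.Nodup) :
    IsWeaklyRegular (MvPolynomial τ K) (l.map (MvPolynomial.X : τ → MvPolynomial τ K)) := by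
  classical
  induction l using List.reverseRecOn with
  | nil => exact IsWeaklyRegular.nil _ _
  | append_singleton l t ih =>
    rw [List.nodup_append] at hl
    obtain ⟨h1, -, h2⟩ := hl
    have ht : t ∉ l := fun h => h2 t h t (by simp) rfl
    rw [List.map_append, isWeaklyRegular_append_iff]
    refine ⟨ih h1, ?_⟩
    rw [List.map_singleton, isWeaklyRegular_singleton_iff, isSMulRegular_iff_right_eq_zero_of_smul]
    intro p hp
    obtain ⟨p, rfl⟩ := Submodule.Quotient.mk_surjective _ p
    rw [← Submodule.Quotient.mk_smul, Submodule.Quotient.mk_eq_zero] at hp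
    rw [Submodule.Quotient.mk_eq_zero]
    have h3 : (Ideal.ofList (l.map (MvPolynomial.X : τ → MvPolynomial τ K)) • ⊤ :
        Submodule (MvPolynomial τ K) (MvPolynomial τ K)) =
        Ideal.span (MvPolynomial.X '' {s | s ∈ l}) := by
      rw [smul_eq_mul, Ideal.mul_top]
      unfold Ideal.ofList
      congr 1
      ext q
      simp
    rw [h3, MvPolynomial.mem_ideal_span_X_image] at hp ⊢
    intro m hm
    obtain ⟨i, hi, him⟩ := hp (m + Finsupp.single t 1) (by
      rw [smul_eq_mul, MvPolynomial.mem_support_iff, mul_comm, MvPolynomial.coeff_mul_X,
        ← MvPolynomial.mem_support_iff]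
      exact hm)
    refine ⟨i, hi, ?_⟩
    have : i ≠ t := by
      rintro rfl
      exact ht hi
    rwa [Finsupp.add_apply, Finsupp.single_eq_of_ne this, add_zero] at him

end Variables

end Pool.Agent.K4H18.BEI
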