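import Pool.Agent.K4H18.BEI.Clique

set_option autoImplicit false

namespace Pool.Agent.K4H18.BEI

open Polynomial

section Seq

variable {A : Type*} [CommRing A] [IsDomain A]

/-- The polynomials `θ_0 w^i + θ_1 w^(i-1) + ... + θ_i`. -/
noncomputable def aa (θ : ℕ → A) : ℕ → A[X]
  | 0 => C (θ 0)
  | i + 1 => X * aa θ i + C (θ (i + 1))

lemma degree_aa (θ : ℕ → A) (h : θ 0 ≠ 0) (i : ℕ) : (aa θ i).degree = i := by
  induction i with
  | zero => simp [aa, degree_C h]
  | succ i ih =>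
    have h1 : (X * aa θ i).degree = ((i + 1 : ℕ) : WithBot ℕ) := by
      rw [mul_comm, degree_mul, ih, degree_X]
      rfl
    rw [aa, degree_add_eq_left_of_degree_lt, h1]
    rw [h1]
    refine lt_of_le_of_lt degree_C_le ?_
    exact_mod_cast Nat.succ_pos i

/-- The polynomials `1, a_1, a_2, ...`. -/
noncomputable def qq (θ : ℕ → A) : ℕ → A[X]
  | 0 => 1
  | i + 1 => aa θ (i + 1)

lemma degree_qq (θ : ℕ → A) (h : θ 0 ≠ 0) (i : ℕ) : (qq θ i).degree = i := by
  cases i with
  | zero => simp [qq]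
  | succ i => exact degree_aa θ h (i + 1)

lemma linearIndependent_qq (θ : ℕ → A) (h : θ 0 ≠ 0) : LinearIndependent A (qq θ) := by
  let s : Polynomial.Sequence A := ⟨qq θ, degree_qq θ h⟩
  exact s.linearIndependent

/-- Independence modulo `a_(n+1)`. -/
lemma indep_mod (θ : ℕ → A) (h : θ 0 ≠ 0) (n : ℕ) (g : Fin (n + 1) → A)
    (hg : aa θ (n + 1) ∣ ∑ i, C (g i) * qq θ i) (i : Fin (n + 1)) : g i = 0 := by
  have h1 : ∑ i, C (g i) * qq θ i = 0 := by
    apply eq_zero_of_dvd_of_degree_lt hg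
    rw [degree_aa θ h]
    refine lt_of_le_of_lt (degree_sum_le _ _) ?_
    rw [Finset.sup_lt_iff (WithBot.bot_lt_coe _)]
    intro j _
    refine lt_of_le_of_lt (degree_mul_le _ _) ?_
    rw [degree_qq θ h]
    refine lt_of_le_of_lt (add_le_add_left degree_C_le _) ?_
    rw [zero_add]
    exact_mod_cast j.2
  have h2 := (linearIndependent_qq θ h).comp (fun i : Fin (n + 1) => (i : ℕ))
    (fun a b hab => Fin.ext hab)
  rw [Fintype.linearIndependent_iff] at h2
  refine h2 g ?_ i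
  rw [← h1]
  refine Finset.sum_congr rfl fun j _ => ?_
  rw [smul_eq_C_mul]
  rfl

end Seq

end Pool.Agent.K4H18.BEI
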