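import Pool.Agent.K4H18.BEI.Clique2

set_option autoImplicit false

namespace Pool.Agent.K4H18.BEI

open Polynomial RingTheory.Sequence

section Main

variable (K : Type*) [Field K] {V : Type*} {n : ℕ} {F : Type*} (e : Fin (n + 1) ⊕ F → V)

/-- The ideal generated by the variables outside the range of `e` and the minors on the clique. -/
noncomputable def cliqueIdeal : Ideal (MvPolynomial (V ⊕ V) K) :=
  Ideal.span ({p | ∃ v, v ∉ Set.range e ∧
      (p = MvPolynomial.X (Sum.inl v) ∨ p = MvPolynomial.X (Sum.inr v))} ∪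
    {p | ∃ i j : Fin (n + 1), p =
      MvPolynomial.X (Sum.inl (e (Sum.inl i))) * MvPolynomial.X (Sum.inr (e (Sum.inl j))) -
      MvPolynomial.X (Sum.inl (e (Sum.inl j))) * MvPolynomial.X (Sum.inr (e (Sum.inl i)))})

/-- The parameter ring. -/
abbrev PA (K : Type*) [Field K] (n : ℕ) (F : Type*) : Type _ :=
  MvPolynomial (Fin (n + 2) ⊕ (F ⊕ F)) K

noncomputable def xx (i : ℕ) : MvPolynomial (V ⊕ V) K :=
  if h : i < n + 1 then MvPolynomial.X (Sum.inl (e (Sum.inl ⟨i, h⟩))) else 0

noncomputable def yp : ℕ → MvPolynomial (V ⊕ V) K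
  | 0 => 0
  | i + 1 => if h : i < n + 1 then MvPolynomial.X (Sum.inr (e (Sum.inl ⟨i, h⟩))) else 0

/-- The parameters. -/
noncomputable def phi : PA K n F →ₐ[K] MvPolynomial (V ⊕ V) K :=
  MvPolynomial.aeval (Sum.elim (fun k : Fin (n + 2) => xx K e k - yp K e k)
    (Sum.elim (fun f => MvPolynomial.X (Sum.inl (e (Sum.inr f))))
      (fun f => MvPolynomial.X (Sum.inr (e (Sum.inr f))))))

noncomputable def th (K : Type*) [Field K] (n : ℕ) (F : Type*) (k : ℕ) : PA K n F :=
  if h : k < n + 2 then MvPolynomial.X (Sum.inl ⟨k, h⟩) else 0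

lemma phi_th (k : ℕ) : phi K e (th K n F k) = xx K e k - yp K e k := by
  unfold th
  split_ifs with h
  · simp [phi]
  · rw [map_zero]
    have h1 : xx K e k = 0 := by
      unfold xx
      rw [dif_neg (by omega)]
    have h2 : yp K e k = 0 := by
      obtain ⟨j, rfl⟩ : ∃ j, k = j + 1 := ⟨k - 1, by omega⟩
      simp only [yp]
      rw [dif_neg (by omega)]
    rw [h1, h2, sub_zero]

lemma th_zero_ne : th K n F 0 ≠ 0 := by
  unfold th
  rw [dif_pos (by omega)]
  exact MvPolynomial.X_ne_zero _

/-- The model ring. -/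
abbrev BB (K : Type*) [Field K] (n : ℕ) (F : Type*) : Type _ :=
  (PA K n F)[X] ⧸ Ideal.span {aa (th K n F) (n + 1)}

noncomputable def psi : MvPolynomial (V ⊕ V) K →ₐ[K] BB K n F :=
  MvPolynomial.aeval (Sum.elim
    (Function.extend e (Sum.elim (fun i => Ideal.Quotient.mk _ (aa (th K n F) i))
      (fun f => Ideal.Quotient.mk _ (C (MvPolynomial.X (Sum.inr (Sum.inl f)))))) 0)
    (Function.extend e (Sum.elim (fun i => Ideal.Quotient.mk _ (X * aa (th K n F) i))
      (fun f => Ideal.Quotient.mk _ (C (MvPolynomial.X (Sum.inr (Sum.inr f)))))) 0))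

variable (he : Function.Injective e)

include he

lemma psi_x (i : Fin (n + 1)) : psi K e (MvPolynomial.X (Sum.inl (e (Sum.inl i)))) =
    Ideal.Quotient.mk _ (aa (th K n F) i) := by
  simp only [psi, MvPolynomial.aeval_X, Sum.elim_inl]
  rw [he.extend_apply]
  rfl

lemma psi_y (i : Fin (n + 1)) : psi K e (MvPolynomial.X (Sum.inr (e (Sum.inl i)))) =
    Ideal.Quotient.mk _ (X * aa (th K n F) i) := by
  simp only [psi, MvPolynomial.aeval_X, Sum.elim_inr]
  rw [he.extend_apply]
  rfl

lemma psi_xf (f : F) : psi K e (MvPolynomial.X (Sum.inl (e (Sum.inr f)))) =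
    Ideal.Quotient.mk _ (C (MvPolynomial.X (Sum.inr (Sum.inl f)) : PA K n F)) := by
  simp only [psi, MvPolynomial.aeval_X, Sum.elim_inl]
  rw [he.extend_apply]
  rfl

lemma psi_yf (f : F) : psi K e (MvPolynomial.X (Sum.inr (e (Sum.inr f)))) =
    Ideal.Quotient.mk _ (C (MvPolynomial.X (Sum.inr (Sum.inr f)) : PA K n F)) := by
  simp only [psi, MvPolynomial.aeval_X, Sum.elim_inr]
  rw [he.extend_apply]
  rfl

lemma psi_xx (i : ℕ) (hi : i < n + 2) : psi K e (xx K e i) =
    Ideal.Quotient.mk _ (aa (th K n F) i) := by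
  unfold xx
  split_ifs with h
  · exact psi_x K e he ⟨i, h⟩
  · have : i = n + 1 := by omega
    subst this
    rw [map_zero, eq_comm, Ideal.Quotient.eq_zero_iff_mem]
    exact Ideal.mem_span_singleton_self _

lemma psi_sub (k : ℕ) (hk : k < n + 2) : psi K e (xx K e k - yp K e k) =
    Ideal.Quotient.mk _ (C (th K n F k)) := by
  rw [map_sub, psi_xx K e he k hk]
  cases k with
  | zero => simp [yp, aa]
  | succ i =>
    simp only [yp]
    rw [dif_pos (show i < n + 1 by omega), psi_y K e he ⟨i, by omega⟩, ← map_sub]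
    congr 1
    change X * aa (th K n F) i + C (th K n F (i + 1)) - X * aa (th K n F) i = _
    rw [add_sub_cancel_left]

lemma psi_phi (p : PA K n F) : psi K e (phi K e p) = Ideal.Quotient.mk _ (C p) := by
  have h : ((psi K e).comp (phi K e)).toRingHom =
      (Ideal.Quotient.mk (Ideal.span {aa (th K n F) (n + 1)})).comp C := by
    apply MvPolynomial.ringHom_ext
    · intro r
      change (psi K e).comp (phi K e) (algebraMap K _ r) = _
      rw [AlgHom.commutes]
      rfl
    · rintro (k | f | f)
      · change psi K e (phi K e (MvPolynomial.X (Sum.inl k))) = _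
        have h1 := psi_sub K e he k k.2
        have h2 : th K n F k = MvPolynomial.X (Sum.inl k) := by
          unfold th
          rw [dif_pos k.2]
        rw [h2] at h1
        rw [RingHom.comp_apply, ← h1]
        simp [phi]
      · change psi K e (phi K e (MvPolynomial.X _)) = _
        rw [phi, MvPolynomial.aeval_X]
        exact psi_xf K e he f
      · change psi K e (phi K e (MvPolynomial.X _)) = _
        rw [phi, MvPolynomial.aeval_X]
        exact psi_yf K e he f
  exact congrArg (fun g : PA K n F →+* BB K n F => g p) h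

lemma psi_ideal (p : MvPolynomial (V ⊕ V) K) (hp : p ∈ cliqueIdeal K e) : psi K e p = 0 := by
  have h : cliqueIdeal K e ≤ RingHom.ker (psi K e).toRingHom := by
    unfold cliqueIdeal
    rw [Ideal.span_le]
    rintro q (⟨v, hv, rfl | rfl⟩ | ⟨i, j, rfl⟩)
    · change psi K e _ = 0
      simp only [psi, MvPolynomial.aeval_X, Sum.elim_inl]
      rw [Function.extend_apply' _ _ _ hv]
      rfl
    · change psi K e _ = 0
      simp only [psi, MvPolynomial.aeval_X, Sum.elim_inr]
      rw [Function.extend_apply' _ _ _ hv]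
      rfl
    · change psi K e _ = 0
      rw [map_sub, map_mul, map_mul, psi_x K e he, psi_x K e he, psi_y K e he, psi_y K e he,
        ← map_mul, ← map_mul, ← map_sub]
      have h0 : ∀ q : (PA K n F)[X], q = 0 →
          Ideal.Quotient.mk (Ideal.span {aa (th K n F) (n + 1)}) q = 0 := by
        rintro q rfl
        exact map_zero _
      apply h0
      ring
  exact h hp

omit he in
lemma rel (i j : ℕ) (hi : i < n + 1) (hj : j < n + 1) :
    xx K e (i + 1) * xx K e j - (xx K e i * xx K e (j + 1) -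
      (xx K e (j + 1) - yp K e (j + 1)) * xx K e i +
      (xx K e (i + 1) - yp K e (i + 1)) * xx K e j) ∈ cliqueIdeal K e := by
  have h : xx K e (i + 1) * xx K e j - (xx K e i * xx K e (j + 1) -
      (xx K e (j + 1) - yp K e (j + 1)) * xx K e i +
      (xx K e (i + 1) - yp K e (i + 1)) * xx K e j) =
      xx K e j * yp K e (i + 1) - xx K e i * yp K e (j + 1) := by ring
  rw [h]
  apply Ideal.subset_span
  right
  refine ⟨⟨j, hj⟩, ⟨i, hi⟩, ?_⟩
  simp only [xx, yp]
  rw [dif_pos hi, dif_pos hj, dif_pos hi, dif_pos hj]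

end Main

end Pool.Agent.K4H18.BEI
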