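import Pool.Agent.K4H18.BEI.Clique3

set_option autoImplicit false

namespace Pool.Agent.K4H18.BEI

open Polynomial RingTheory.Sequence

section Module

variable (K : Type*) [Field K] {V : Type*} {n : ℕ} {F : Type*} (e : Fin (n + 1) ⊕ F → V)

/-- The algebra structure given by the parameters. -/
@[reducible] noncomputable def algS : Algebra (PA K n F) (MvPolynomial (V ⊕ V) K) :=
  (phi K e).toRingHom.toAlgebra

/-- The quotient ring. -/
abbrev RR : Type _ := MvPolynomial (V ⊕ V) K ⧸ cliqueIdeal K e

/-- The candidate basis. -/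
noncomputable def bb (i : Fin (n + 1)) : RR K e :=
  if i = 0 then 1 else Ideal.Quotient.mk _ (xx K e i)

lemma smul_mk (a : PA K n F) (p : MvPolynomial (V ⊕ V) K) :
    letI := algS K e
    a • (Ideal.Quotient.mk (cliqueIdeal K e) p) =
      Ideal.Quotient.mk (cliqueIdeal K e) (phi K e a * p) := by
  let _ := algS K e
  rw [← Ideal.Quotient.mk_eq_mk, ← Submodule.Quotient.mk_smul, Algebra.smul_def]
  rfl

/-- The span of the candidate basis. -/
noncomputable def WW : letI := algS K e; Submodule (PA K n F) (RR K e) :=
  let _ := algS K e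
  Submodule.span (PA K n F) (Set.range (bb K e))

lemma one_mem_WW : (1 : RR K e) ∈ WW K e := by
  let _ := algS K e
  apply Submodule.subset_span
  exact ⟨0, by simp [bb]⟩

lemma phi_mul_mem (a : PA K n F) (p : MvPolynomial (V ⊕ V) K)
    (hp : Ideal.Quotient.mk (cliqueIdeal K e) p ∈ WW K e) :
    Ideal.Quotient.mk (cliqueIdeal K e) (phi K e a * p) ∈ WW K e := by
  let _ := algS K e
  rw [← smul_mk]
  exact Submodule.smul_mem _ _ hp

lemma xx_mem (i : ℕ) : Ideal.Quotient.mk (cliqueIdeal K e) (xx K e i) ∈ WW K e := by
  let _ := algS K e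
  by_cases h : i < n + 1
  · by_cases h0 : i = 0
    · subst h0
      have h1 : xx K e 0 = phi K e (th K n F 0) * 1 := by
        rw [phi_th, mul_one]
        simp [yp]
      rw [h1]
      apply phi_mul_mem
      rw [map_one]
      exact one_mem_WW K e
    · apply Submodule.subset_span
      refine ⟨⟨i, h⟩, ?_⟩
      rw [bb, if_neg]
      intro h1
      exact h0 (congrArg Fin.val h1)
  · have h1 : xx K e i = 0 := by
      unfold xx
      rw [dif_neg h]
    rw [h1, map_zero]
    exact Submodule.zero_mem _

lemma xx_mul_xx_mem (i : ℕ) : ∀ j : ℕ, Ideal.Quotient.mk (cliqueIdeal K e) (xx K e i * xx K e j) ∈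
    WW K e := by
  let _ := algS K e
  induction i with
  | zero =>
    intro j
    have h1 : xx K e 0 = phi K e (th K n F 0) := by
      rw [phi_th]
      simp [yp]
    rw [h1]
    exact phi_mul_mem K e _ _ (xx_mem K e j)
  | succ i ih =>
    intro j
    by_cases hi : i < n + 1
    · by_cases hj : j < n + 1
      · have h := rel K e i j hi hj
        rw [← phi_th, ← phi_th] at h
        rw [← Ideal.Quotient.eq] at h
        rw [h, map_add, map_sub]
        refine Submodule.add_mem _ (Submodule.sub_mem _ (ih _) ?_) ?_
        · exact phi_mul_mem K e _ _ (xx_mem K e i)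
        · exact phi_mul_mem K e _ _ (xx_mem K e j)
      · have h1 : xx K e j = 0 := by
          unfold xx
          rw [dif_neg hj]
        rw [h1, mul_zero, map_zero]
        exact Submodule.zero_mem _
    · have h1 : xx K e (i + 1) = 0 := by
        unfold xx
        rw [dif_neg (by omega)]
      rw [h1, zero_mul, map_zero]
      exact Submodule.zero_mem _

/-- Closure of the span under multiplication by `xx i`. -/
lemma mul_xx_mem (i : ℕ) (r : RR K e) (hr : r ∈ WW K e) :
    r * Ideal.Quotient.mk (cliqueIdeal K e) (xx K e i) ∈ WW K e := by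
  let _ := algS K e
  unfold WW at hr
  induction hr using Submodule.span_induction with
  | mem y hy =>
    obtain ⟨j, rfl⟩ := hy
    unfold bb
    split_ifs with h
    · rw [one_mul]
      exact xx_mem K e i
    · rw [← map_mul]
      exact xx_mul_xx_mem K e j i
  | zero => rw [zero_mul]; exact Submodule.zero_mem _
  | add a b _ _ ha hb => rw [add_mul]; exact Submodule.add_mem _ ha hb
  | smul a b _ hb =>
    rw [smul_mul_assoc]
    exact Submodule.smul_mem _ _ hb

lemma mul_phi_mem (a : PA K n F) (r : RR K e) (hr : r ∈ WW K e) :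
    r * Ideal.Quotient.mk (cliqueIdeal K e) (phi K e a) ∈ WW K e := by
  let _ := algS K e
  obtain ⟨p, rfl⟩ := Ideal.Quotient.mk_surjective r
  rw [← map_mul, mul_comm]
  exact phi_mul_mem K e a p hr

lemma mul_X_mem (v : V ⊕ V) (r : RR K e) (hr : r ∈ WW K e) :
    r * Ideal.Quotient.mk (cliqueIdeal K e) (MvPolynomial.X v) ∈ WW K e := by
  let _ := algS K e
  have hout : ∀ v : V, v ∉ Set.range e →
      Ideal.Quotient.mk (cliqueIdeal K e) (MvPolynomial.X (Sum.inl v)) = 0 ∧
      Ideal.Quotient.mk (cliqueIdeal K e) (MvPolynomial.X (Sum.inr v)) = 0 := by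
    intro v hv
    constructor <;> rw [Ideal.Quotient.eq_zero_iff_mem] <;> apply Ideal.subset_span <;> left
    · exact ⟨v, hv, Or.inl rfl⟩
    · exact ⟨v, hv, Or.inr rfl⟩
  rcases v with v | v
  · by_cases hv : v ∈ Set.range e
    · obtain ⟨i | f, rfl⟩ := hv
      · have h : (MvPolynomial.X (Sum.inl (e (Sum.inl i))) : MvPolynomial (V ⊕ V) K) =
            xx K e i := by
          unfold xx
          rw [dif_pos i.2]
        rw [h]
        exact mul_xx_mem K e i r hr
      · have h : (MvPolynomial.X (Sum.inl (e (Sum.inr f))) : MvPolynomial (V ⊕ V) K) =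
            phi K e (MvPolynomial.X (Sum.inr (Sum.inl f))) := by
          simp [phi]
        rw [h]
        exact mul_phi_mem K e _ r hr
    · rw [(hout v hv).1, mul_zero]
      exact Submodule.zero_mem _
  · by_cases hv : v ∈ Set.range e
    · obtain ⟨i | f, rfl⟩ := hv
      · have h : (MvPolynomial.X (Sum.inr (e (Sum.inl i))) : MvPolynomial (V ⊕ V) K) =
            xx K e (i + 1) - phi K e (th K n F (i + 1)) := by
          rw [phi_th, sub_sub_cancel]
          simp only [yp]
          rw [dif_pos i.2]
        rw [h, map_sub, mul_sub]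
        exact Submodule.sub_mem _ (mul_xx_mem K e _ r hr) (mul_phi_mem K e _ r hr)
      · have h : (MvPolynomial.X (Sum.inr (e (Sum.inr f))) : MvPolynomial (V ⊕ V) K) =
            phi K e (MvPolynomial.X (Sum.inr (Sum.inr f))) := by
          simp [phi]
        rw [h]
        exact mul_phi_mem K e _ r hr
    · rw [(hout v hv).2, mul_zero]
      exact Submodule.zero_mem _

lemma WW_top : WW K e = ⊤ := by
  let _ := algS K e
  rw [eq_top_iff]
  rintro r -
  obtain ⟨p, rfl⟩ := Ideal.Quotient.mk_surjective r
  induction p using MvPolynomial.induction_on with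
  | C a =>
    have h : (MvPolynomial.C a : MvPolynomial (V ⊕ V) K) = phi K e (MvPolynomial.C a) * 1 := by
      rw [mul_one]
      have := (phi K e).commutes a
      rw [MvPolynomial.algebraMap_eq, MvPolynomial.algebraMap_eq] at this
      exact this.symm
    rw [h]
    apply phi_mul_mem
    rw [map_one]
    exact one_mem_WW K e
  | add p q hp hq => rw [map_add]; exact Submodule.add_mem _ hp hq
  | mul_X p v hp => rw [map_mul]; exact mul_X_mem K e v _ hp

variable (he : Function.Injective e)

include he in
lemma indep : letI := algS K e; LinearIndependent (PA K n F) (bb K e) := by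
  let _ := algS K e
  rw [Fintype.linearIndependent_iff]
  intro g hg i
  apply indep_mod (th K n F) (th_zero_ne K) n g
  rw [← Ideal.mem_span_singleton, ← Ideal.Quotient.eq_zero_iff_mem]
  -- lift the relation to the polynomial ring
  have h1 : ∑ i : Fin (n + 1), phi K e (g i) * (if i = 0 then 1 else xx K e i) ∈
      cliqueIdeal K e := by
    rw [← Ideal.Quotient.eq_zero_iff_mem, map_sum, ← hg]
    refine Finset.sum_congr rfl fun j _ => ?_
    rw [← smul_mk]
    congr 1
    unfold bb
    split_ifs
    · rw [map_one]
    · rfl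
  have h2 := psi_ideal K e he _ h1
  rw [← h2, map_sum, map_sum]
  refine Finset.sum_congr rfl fun j _ => ?_
  rw [map_mul, map_mul, psi_phi K e he]
  congr 1
  split_ifs with h
  · subst h
    rw [map_one]
    simp [qq]
  · rw [psi_xx K e he j (by omega)]
    congr 1
    obtain ⟨j, hj⟩ := j
    cases j with
    | zero => exact absurd rfl h
    | succ j => rfl

end Module

end Pool.Agent.K4H18.BEI
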