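import Pool.Agent.K4H18.BEI.Clique4

set_option autoImplicit false

namespace Pool.Agent.K4H18.BEI

open RingTheory.Sequence

/-- Integral extensions do not raise the dimension. -/
lemma ringKrullDim_le_of_integral (R T : Type*) [CommRing R] [CommRing T] [Algebra R T]
    [Algebra.IsIntegral R T] : ringKrullDim T ≤ ringKrullDim R := by
  apply Order.krullDim_le_of_strictMono (PrimeSpectrum.comap (algebraMap R T))
  intro p q hpq
  obtain ⟨x, hxq, hxp⟩ := SetLike.exists_of_lt (show p.asIdeal < q.asIdeal from hpq)
  exact Ideal.comap_lt_comap_of_integral_mem_sdiff (I := p.asIdeal) (J := q.asIdeal)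
    (show p.asIdeal < q.asIdeal from hpq).le ⟨hxq, hxp⟩ (Algebra.IsIntegral.isIntegral x)

section

variable (K : Type*) [Field K] {V : Type*} {n : ℕ} {F : Type*} (e : Fin (n + 1) ⊕ F → V)

/-- The irrelevant ideal. -/
noncomputable def irr (K : Type*) [Field K] (V : Type*) : Ideal (MvPolynomial (V ⊕ V) K) :=
  Ideal.span (Set.range MvPolynomial.X)

lemma X_mem_irr (v : V ⊕ V) : (MvPolynomial.X v : MvPolynomial (V ⊕ V) K) ∈ irr K V :=
  Ideal.subset_span ⟨v, rfl⟩

lemma phi_X_mem (t : Fin (n + 2) ⊕ (F ⊕ F)) : phi K e (MvPolynomial.X t) ∈ irr K V := by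
  rcases t with k | f | f
  · simp only [phi, MvPolynomial.aeval_X, Sum.elim_inl]
    apply Ideal.sub_mem
    · unfold xx
      split_ifs
      · exact X_mem_irr K _
      · exact Ideal.zero_mem _
    · obtain ⟨k, hk⟩ := k
      cases k with
      | zero => exact Ideal.zero_mem _
      | succ k =>
        simp only [yp]
        split_ifs
        · exact X_mem_irr K _
        · exact Ideal.zero_mem _
  · simp only [phi, MvPolynomial.aeval_X, Sum.elim_inr, Sum.elim_inl]
    exact X_mem_irr K _
  · simp only [phi, MvPolynomial.aeval_X, Sum.elim_inr]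
    exact X_mem_irr K _

variable (he : Function.Injective e)

include he in
/-- The quotient has a long weakly regular sequence in the irrelevant ideal. -/
theorem exists_weaklyRegular [Fintype F] : ∃ rs : List (MvPolynomial (V ⊕ V) K),
    rs.length = n + 2 + 2 * Fintype.card F ∧ (∀ r ∈ rs, r ∈ irr K V) ∧
    IsWeaklyRegular (MvPolynomial (V ⊕ V) K ⧸ cliqueIdeal K e) rs := by
  classical
  let _ := algS K e
  let l : List (Fin (n + 2) ⊕ (F ⊕ F)) := Finset.univ.toList
  let rsA : List (PA K n F) := l.map MvPolynomial.X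
  have h1 : IsWeaklyRegular (PA K n F) rsA := isWeaklyRegular_X l (Finset.nodup_toList _)
  have hspan : (⊤ : Submodule (PA K n F) (RR K e)) ≤
      Submodule.span (PA K n F) (Set.range (bb K e)) := by
    rw [← WW_top K e]
    exact le_rfl
  let b : Module.Basis (Fin (n + 1)) (PA K n F) (RR K e) := Module.Basis.mk (indep K e he) hspan
  have hfree : Module.Free (PA K n F) (RR K e) := Module.Free.of_basis b
  have h2 : IsWeaklyRegular (RR K e) (rsA.map (algebraMap (PA K n F) (RR K e))) := h1.of_flat
  have h3 : rsA.map (algebraMap (PA K n F) (RR K e)) =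
      (rsA.map (phi K e)).map (algebraMap (MvPolynomial (V ⊕ V) K) (RR K e)) := by
    rw [List.map_map (l := rsA)]
    rfl
  rw [h3, isWeaklyRegular_map_algebraMap_iff] at h2
  refine ⟨rsA.map (phi K e), ?_, ?_, h2⟩
  · simp only [List.length_map, rsA, l, Finset.length_toList, Finset.card_univ,
      Fintype.card_sum, Fintype.card_fin]
    ring
  · intro r hr
    simp only [List.mem_map, rsA] at hr
    obtain ⟨a, ⟨t, -, rfl⟩, rfl⟩ := hr
    exact phi_X_mem K e t

/-- The dimension of the quotient. -/
theorem dim_le [Fintype F] : ringKrullDim (MvPolynomial (V ⊕ V) K ⧸ cliqueIdeal K e) ≤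
    ((n + 2 + 2 * Fintype.card F : ℕ) : WithBot ℕ∞) := by
  classical
  let _ := algS K e
  have hspan : (⊤ : Submodule (PA K n F) (RR K e)) =
      Submodule.span (PA K n F) (Set.range (bb K e)) := (WW_top K e).symm
  have hfin : Module.Finite (PA K n F) (RR K e) := by
    rw [Module.finite_def, hspan]
    exact Submodule.fg_span (Set.finite_range _)
  refine (ringKrullDim_le_of_integral (PA K n F) (RR K e)).trans ?_
  rw [MvPolynomial.ringKrullDim_of_isNoetherianRing, ringKrullDim_eq_zero_of_field, zero_add,
    Nat.card_eq_fintype_card, Fintype.card_sum, Fintype.card_sum, Fintype.card_fin]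
  apply le_of_eq
  congr 1

  ring

end

end Pool.Agent.K4H18.BEI
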