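import Pool.Agent.K4H18.BEI.Bounds

set_option autoImplicit false

namespace Pool.Agent.K4H18.BEI

open RingTheory.Sequence

universe u

/-- The whisker graph: one new vertex `none`, adjacent to `v` only. -/
def whisk {W : Type} (H : SimpleGraph W) (v : W) : SimpleGraph (Option W) where
  Adj
    | some a, some b => H.Adj a b
    | some a, none => a = v
    | none, some b => b = v
    | none, none => False
  symm := ⟨by
    rintro (_ | a) (_ | b) h
    · exact h
    · exact h
    · exact h
    · exact SimpleGraph.Adj.symm (G := H) h⟩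
  loopless := ⟨by
    rintro (_ | a) h
    · exact h
    · exact H.loopless.irrefl a h⟩

/-- The graph on seven vertices. -/
def GG : SimpleGraph (Fin 7) where
  Adj i j := i ≠ j ∧ (i = 0 ∨ j = 0 ∨ (i.val ≤ 4 ∧ j.val ≤ 4 ∧ ¬ (3 ≤ i.val ∧ 3 ≤ j.val)))
  symm := ⟨by decide⟩
  loopless := ⟨by decide⟩

/-- The graph with the edge `34` added. -/
def GG' : SimpleGraph (Fin 7) where
  Adj i j := i ≠ j ∧ (i = 0 ∨ j = 0 ∨ (i.val ≤ 4 ∧ j.val ≤ 4))
  symm := ⟨by decide⟩
  loopless := ⟨by decide⟩

/-- The first part: `K_5` minus the edge `34`. -/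
def GA : GG.Subgraph where
  verts := {i | i.val ≤ 4}
  Adj i j := GG.Adj i j ∧ i.val ≤ 4 ∧ j.val ≤ 4
  adj_sub := fun h => h.1
  edge_vert := fun h => h.2.1
  symm := ⟨fun _ _ h => ⟨SimpleGraph.Adj.symm (G := GG) h.1, h.2.2, h.2.1⟩⟩

/-- The second part: the path `5 - 0 - 6`. -/
def GB : GG.Subgraph where
  verts := {i | i.val = 0 ∨ 5 ≤ i.val}
  Adj i j := GG.Adj i j ∧ (i.val = 0 ∨ 5 ≤ i.val) ∧ (j.val = 0 ∨ 5 ≤ j.val)
  adj_sub := fun h => h.1
  edge_vert := fun h => h.2.1
  symm := ⟨fun _ _ h => ⟨SimpleGraph.Adj.symm (G := GG) h.1, h.2.2, h.2.1⟩⟩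

instance : DecidableRel GG.Adj := fun i j => by unfold GG; infer_instance
instance : DecidableRel GG'.Adj := fun i j => by unfold GG'; infer_instance

section

variable (K : Type u) [Field K]

theorem PP_GG : PP (irr K (Fin 7)) (MvPolynomial (Fin 7 ⊕ Fin 7) K ⧸ JJ K GG) 8 := by
  -- the complete graph
  have h0 : PP (irr K (Fin 7)) (MvPolynomial (Fin 7 ⊕ Fin 7) K ⧸ JJ K (⊤ : SimpleGraph (Fin 7)))
      8 := by
    let e : Fin (6 + 1) ⊕ Empty → Fin 7 := Sum.elim id Empty.elim
    have h := PP_clique K e (by decide) ∅ (by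
      intro v
      simp only [Set.mem_empty_iff_false, false_iff, not_not]
      exact ⟨Sum.inl v, rfl⟩) (⊤ : SimpleGraph (Fin 7))
      (fun i j _ => Or.inr (Or.inr ⟨⟨i, rfl⟩, ⟨j, rfl⟩⟩)) (fun k l hkl => hkl)
    have h1 : ZI K (∅ : Set (Fin 7)) ⊔ JJ K (⊤ : SimpleGraph (Fin 7)) = JJ K ⊤ := by
      apply le_antisymm
      · apply sup_le _ le_rfl
        apply ZI_le
        intro z hz
        exact absurd hz (by simp)
      · exact le_sup_right
    rw [h1] at h
    exact h
  have h1 : PP (irr K (Fin 7)) (MvPolynomial (Fin 7 ⊕ Fin 7) K ⧸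
      (ZI K {0} ⊔ JJ K (⊤ : SimpleGraph (Fin 7)))) 7 := by
    let e : Fin (5 + 1) ⊕ Empty → Fin 7 := Sum.elim Fin.succ Empty.elim
    exact PP_clique K e (by decide) {0} (by
      intro v
      rw [Set.mem_singleton_iff, Set.mem_range]
      revert v
      decide) (⊤ : SimpleGraph (Fin 7)) (by
      intro i j _
      rw [Set.mem_singleton_iff, Set.mem_singleton_iff]
      revert i j
      decide) (fun k l hkl h => hkl (Fin.succ_injective _ h))
  have h2 : PP (irr K (Fin 7)) (MvPolynomial (Fin 7 ⊕ Fin 7) K ⧸ (ZI K {0} ⊔ JJ K GG')) 9 := by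
    let e : Fin (3 + 1) ⊕ Fin 2 → Fin 7 := Sum.elim (fun i => ⟨i + 1, by omega⟩)
      (fun j => ⟨j + 5, by omega⟩)
    exact PP_clique K e (by decide) {0} (by
      intro v
      rw [Set.mem_singleton_iff, Set.mem_range]
      revert v
      decide) GG' (by
      intro i j
      rw [Set.mem_singleton_iff, Set.mem_singleton_iff]
      revert i j
      decide) (by decide)
  have h3 : PP (irr K (Fin 7)) (MvPolynomial (Fin 7 ⊕ Fin 7) K ⧸ (ZI K {0, 1, 2} ⊔ JJ K GG))
      8 := by
    let e : Fin (0 + 1) ⊕ Fin 3 → Fin 7 := Sum.elim (fun _ => 3) (fun j => ⟨j + 4, by omega⟩)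
    exact PP_clique K e (by decide) {0, 1, 2} (by
      intro v
      simp only [Set.mem_insert_iff, Set.mem_singleton_iff, Set.mem_range]
      revert v
      decide) GG (by
      intro i j
      simp only [Set.mem_insert_iff, Set.mem_singleton_iff]
      revert i j
      decide) (by decide)
  have h4 : PP (irr K (Fin 7)) (MvPolynomial (Fin 7 ⊕ Fin 7) K ⧸ (ZI K {0, 1, 2} ⊔ JJ K GG'))
      7 := by
    let e : Fin (1 + 1) ⊕ Fin 2 → Fin 7 := Sum.elim (fun i => ⟨i + 3, by omega⟩)
      (fun j => ⟨j + 5, by omega⟩)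
    exact PP_clique K e (by decide) {0, 1, 2} (by
      intro v
      simp only [Set.mem_insert_iff, Set.mem_singleton_iff, Set.mem_range]
      revert v
      decide) GG' (by
      intro i j
      simp only [Set.mem_insert_iff, Set.mem_singleton_iff]
      revert i j
      decide) (by decide)
  have h5 : PP (irr K (Fin 7)) (MvPolynomial (Fin 7 ⊕ Fin 7) K ⧸ (ZI K {0} ⊔ JJ K GG)) 8 := by
    have hs := split_edge K GG GG' 3 4 (by decide) (by decide) {0} {0, 1, 2} (by
      rintro z rfl
      simp) (by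
      simp only [Set.mem_insert_iff, Set.mem_singleton_iff]
      decide) (by
      simp only [Set.mem_insert_iff, Set.mem_singleton_iff]
      decide) (by
      intro i j
      simp only [Set.mem_insert_iff, Set.mem_singleton_iff]
      revert i j
      decide) (by
      intro z
      simp only [Set.mem_insert_iff, Set.mem_singleton_iff]
      revert z
      decide)
    rw [hs]
    apply PP_inf
    · exact h2.mono _ (by norm_num)
    · exact h3
    · have h6 : (ZI K {0} ⊔ JJ K GG') ⊔ (ZI K {0, 1, 2} ⊔ JJ K GG) =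
          ZI K {0, 1, 2} ⊔ JJ K GG' := by
        apply le_antisymm
        · apply sup_le
          · apply sup_le_sup _ le_rfl
            apply ZI_mono
            rintro z rfl
            simp
          · apply sup_le_sup le_rfl
            apply JJ_mono
            intro i j
            revert i j
            decide
        · apply sup_le
          · exact le_sup_left.trans le_sup_right
          · exact le_sup_right.trans le_sup_left
      rw [h6]
      exact h4
  rw [split_dom K GG 0 (by decide)]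
  apply PP_inf
  · exact h0
  · exact h5
  · have h6 : JJ K (⊤ : SimpleGraph (Fin 7)) ⊔ (ZI K {0} ⊔ JJ K GG) =
        ZI K {0} ⊔ JJ K (⊤ : SimpleGraph (Fin 7)) := by
      apply le_antisymm
      · apply sup_le le_sup_right
        exact sup_le_sup le_rfl (JJ_mono K le_top)
      · apply sup_le
        · exact le_sup_left.trans le_sup_right
        · exact le_sup_left
    rw [h6]
    exact h1

theorem lower : ∃ rs : List (MvPolynomial (Fin 7 ⊕ Fin 7) K), rs.length = 8 ∧
    (∀ r ∈ rs, r ∈ irr K (Fin 7)) ∧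
    IsRegular (MvPolynomial (Fin 7 ⊕ Fin 7) K ⧸ JJ K GG) rs :=
  exists_regular_of_PP _ (smul_top_ne_top K (JJ_le_irr K GG)) 8 (PP_GG K)

theorem upper_GA (h : (0 : Fin 7) ∈ GA.verts)
    (rs : List (MvPolynomial (Option GA.verts ⊕ Option GA.verts) K))
    (hmem : ∀ r ∈ rs, r ∈ irr K (Option GA.verts))
    (hreg : IsWeaklyRegular (MvPolynomial (Option GA.verts ⊕ Option GA.verts) K ⧸
      JJ K (whisk GA.coe ⟨0, h⟩)) rs) : rs.length ≤ 6 := by
  let Z : Set (Option GA.verts) := {w | ∃ x : GA.verts, w = some x ∧ x.1.val ≤ 2}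
  let e : Fin (0 + 1) ⊕ Fin 2 → Option GA.verts :=
    Sum.elim (fun _ => none) (fun j => some ⟨⟨j + 3, by omega⟩, by
      change j.val + 3 ≤ 4
      omega⟩)
  refine upper_a K (whisk GA.coe ⟨0, h⟩) Z (some ⟨3, (by decide : (3 : Fin 7).val ≤ 4)⟩)
    (some ⟨4, (by decide : (4 : Fin 7).val ≤ 4)⟩) ?_ ?_ ?_ ?_ ?_
    e ?_ rs hmem hreg
  · intro h
    have := congrArg (fun z : Option GA.verts => z.map Subtype.val) h
    simp at this
  · rintro ⟨x, hx, hx2⟩
    have := Option.some_injective _ hx
    subst this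
    exact absurd hx2 (by decide)
  · rintro ⟨x, hx, hx2⟩
    have := Option.some_injective _ hx
    subst this
    exact absurd hx2 (by decide)
  · rintro (_ | ⟨x, hx⟩) (_ | ⟨y, hy⟩) hxy
    · exact absurd hxy id
    · right
      have h1 : (⟨y, hy⟩ : GA.verts) = ⟨0, h⟩ := hxy
      exact ⟨_, rfl, by rw [h1]; exact Nat.zero_le 2⟩
    · left
      have h1 : (⟨x, hx⟩ : GA.verts) = ⟨0, h⟩ := hxy
      exact ⟨_, rfl, by rw [h1]; exact Nat.zero_le 2⟩
    · have h1 : GG.Adj x y ∧ x.val ≤ 4 ∧ y.val ≤ 4 := hxy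
      have h2 : x.val ≤ 2 ∨ y.val ≤ 2 := by
        revert h1
        clear hxy hx hy
        revert x y
        decide
      rcases h2 with h2 | h2
      · left
        exact ⟨_, rfl, h2⟩
      · right
        exact ⟨_, rfl, h2⟩
  · rintro _ ⟨⟨x, hx⟩, rfl, hx2⟩
    constructor
    · change GG.Adj x 3 ∧ x.val ≤ 4 ∧ (3 : Fin 7).val ≤ 4
      have h2 : x.val ≤ 2 := hx2
      clear hx2 hx
      revert x
      decide
    · change GG.Adj x 4 ∧ x.val ≤ 4 ∧ (4 : Fin 7).val ≤ 4
      have h2 : x.val ≤ 2 := hx2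
      clear hx2 hx
      revert x
      decide
  · rintro (_ | ⟨x, hx⟩)
    · constructor
      · rintro ⟨x, hx, -⟩
        exact absurd hx (by simp)
      · intro h1
        exact absurd ⟨Sum.inl 0, rfl⟩ h1
    · constructor
      · rintro ⟨y, hy, hy2⟩ ⟨z, hz⟩
        have := Option.some_injective _ hy
        subst this
        rcases z with z | z
        · exact absurd hz (by simp [e])
        · have h3 := congrArg (fun z : Option GA.verts => z.map (fun t => t.1.val)) hz
          simp [e] at h3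
          change x.val ≤ 2 at hy2
          omega
      · intro h1
        by_contra h2
        apply h1
        have h3 : ¬ x.val ≤ 2 := fun h3 => h2 ⟨_, rfl, h3⟩
        have h4 : x.val ≤ 4 := hx
        refine ⟨Sum.inr ⟨x.val - 3, by omega⟩, ?_⟩
        simp only [e, Sum.elim_inr]
        congr 1
        apply Subtype.ext
        apply Fin.ext
        change x.val - 3 + 3 = x.val
        omega

theorem upper_GB (h : (0 : Fin 7) ∈ GB.verts)
    (rs : List (MvPolynomial (Option GB.verts ⊕ Option GB.verts) K))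
    (hmem : ∀ r ∈ rs, r ∈ irr K (Option GB.verts))
    (hreg : IsWeaklyRegular (MvPolynomial (Option GB.verts ⊕ Option GB.verts) K ⧸
      JJ K (whisk GB.coe ⟨0, h⟩)) rs) : rs.length ≤ 5 := by
  let e : Fin (3 + 1) ⊕ Empty → Option GB.verts :=
    Sum.elim (fun i => if i = 0 then none else if i = 1 then some ⟨0, h⟩ else
      if i = 2 then some ⟨5, by right; decide⟩ else some ⟨6, by right; decide⟩) Empty.elim
  refine upper_b K (whisk GB.coe ⟨0, h⟩) (some ⟨0, h⟩) ?_ e ?_ rs hmem hreg
  · rintro (_ | ⟨x, hx⟩) hxy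
    · exact rfl
    · change GG.Adj 0 x ∧ ((0 : Fin 7).val = 0 ∨ 5 ≤ (0 : Fin 7).val) ∧ (x.val = 0 ∨ 5 ≤ x.val)
      have h1 : x ≠ 0 := by
        rintro rfl
        exact hxy rfl
      refine ⟨?_, Or.inl rfl, hx⟩
      revert h1
      clear hxy hx
      revert x
      decide
  · constructor
    · rintro (i | i) (j | j) hij
      · have h3 := congrArg (fun z : Option GB.verts => z.map (fun t => t.1.val)) hij
        clear hij
        revert h3
        fin_cases i <;> fin_cases j <;> simp [e]
      · exact isEmptyElim j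
      · exact isEmptyElim i
      · exact isEmptyElim i
    · rintro (_ | ⟨x, hx⟩)
      · exact ⟨Sum.inl 0, rfl⟩
      · have h1 : x = 0 ∨ x = 5 ∨ x = 6 := by
          have h2 : x.val = 0 ∨ 5 ≤ x.val := hx
          revert h2
          clear hx
          revert x
          decide
        rcases h1 with rfl | rfl | rfl
        · exact ⟨Sum.inl 1, rfl⟩
        · exact ⟨Sum.inl 2, rfl⟩
        · exact ⟨Sum.inl 3, rfl⟩

end

end Pool.Agent.K4H18.BEI
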