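import Pool.Agent.K4H18.BEI.Clique5

set_option autoImplicit false

namespace Pool.Agent.K4H18.BEI

open RingTheory.Sequence CategoryTheory Abelian

universe u

section

variable {R : Type u} [CommRing R] (I : Ideal R)

/-- Vanishing of the groups `Ext^i(R/I, M)` for `i < n`. -/
def PP (M : Type u) [AddCommGroup M] [Module R M] (n : ℕ) : Prop :=
  ∀ i < n, Subsingleton (Ext (ModuleCat.of R (R ⧸ I)) (ModuleCat.of R M) i)

variable {A B C M : Type u} [AddCommGroup A] [Module R A] [AddCommGroup B] [Module R B]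
  [AddCommGroup C] [Module R C] [AddCommGroup M] [Module R M]

lemma PP.mono {n m : ℕ} (h : PP I A n) (hmn : m ≤ n) : PP I A m :=
  fun i hi => h i (lt_of_lt_of_le hi hmn)

lemma PP_left (f : A →ₗ[R] B) (g : B →ₗ[R] C) (hf : Function.Injective f)
    (hg : Function.Surjective g) (hfg : Function.Exact f g) {n : ℕ} (hB : PP I B (n + 1))
    (hC : PP I C n) : PP I A (n + 1) := by
  let S : ShortComplex (ModuleCat.{u} R) := ShortComplex.moduleCatMk f g hfg.linearMap_comp_eq_zero
  have hS : S.ShortExact := ModuleCat.shortComplex_shortExact S hfg hf hg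
  intro i hi
  cases i with
  | zero =>
    have h1 : Function.Injective ((Ext.mk₀ S.f).postcomp (ModuleCat.of R (R ⧸ I)) (add_zero 0)) := by
      have := hS.mono_f
      exact Ext.postcomp_mk₀_injective_of_mono _ _
    have h2 := hB 0 (by omega)
    exact @Function.Injective.subsingleton _ _ _ h1 h2
  | succ i =>
    constructor
    intro a b
    have key : ∀ x : Ext (ModuleCat.of R (R ⧸ I)) S.X₁ (i + 1), x = 0 := by
      intro x
      have h2 := hB (i + 1) hi
      have h3 := hC i (by omega)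
      obtain ⟨x₃, hx₃⟩ := Ext.covariant_sequence_exact₁ (ModuleCat.of R (R ⧸ I)) hS x
        (@Subsingleton.elim _ h2 _ _) (n₀ := i) rfl
      have h4 : x₃ = 0 := @Subsingleton.elim _ h3 _ _
      rw [← hx₃, h4, Ext.zero_comp]
    rw [key a, key b]

lemma PP_mid (f : A →ₗ[R] B) (g : B →ₗ[R] C) (hf : Function.Injective f)
    (hg : Function.Surjective g) (hfg : Function.Exact f g) {n : ℕ} (hA : PP I A n)
    (hC : PP I C n) : PP I B n := by
  let S : ShortComplex (ModuleCat.{u} R) := ShortComplex.moduleCatMk f g hfg.linearMap_comp_eq_zero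
  have hS : S.ShortExact := ModuleCat.shortComplex_shortExact S hfg hf hg
  intro i hi
  constructor
  intro a b
  have key : ∀ x : Ext (ModuleCat.of R (R ⧸ I)) S.X₂ i, x = 0 := by
    intro x
    have h2 := hA i hi
    have h3 := hC i hi
    obtain ⟨x₁, hx₁⟩ := Ext.covariant_sequence_exact₂ (ModuleCat.of R (R ⧸ I)) hS x
      (@Subsingleton.elim _ h3 _ _)
    have h4 : x₁ = 0 := @Subsingleton.elim _ h2 _ _
    rw [← hx₁, h4, Ext.zero_comp]
  rw [key a, key b]

lemma PP_glue (α : M →ₗ[R] A) (β : M →ₗ[R] B) (γ : B →ₗ[R] C) (hα : Function.Surjective α)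
    (hγs : Function.Surjective γ)
    (hγ : ∀ b, γ b = 0 ↔ ∃ m, α m = 0 ∧ β m = b) (hinj : ∀ m, α m = 0 → β m = 0 → m = 0) {n : ℕ}
    (hA : PP I A (n + 1)) (hB : PP I B (n + 1)) (hC : PP I C n) : PP I M (n + 1) := by
  have h1 : PP I (LinearMap.ker α) (n + 1) := by
    apply PP_left I (β.comp (LinearMap.ker α).subtype) γ _ hγs _ hB hC
    · rw [injective_iff_map_eq_zero]
      rintro ⟨m, hm⟩ h
      exact Subtype.ext (hinj m hm h)
    · intro b
      rw [hγ]
      constructor
      · rintro ⟨m, hm, rfl⟩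
        exact ⟨⟨m, hm⟩, rfl⟩
      · rintro ⟨⟨m, hm⟩, rfl⟩
        exact ⟨m, hm, rfl⟩
  refine PP_mid I (LinearMap.ker α).subtype α (Submodule.injective_subtype _) hα ?_ h1 hA
  intro m
  simp

/-- The version for ideals: `0 → R/(a ∩ b) → R/a ⊕ R/b → R/(a + b) → 0`. -/
lemma PP_inf (a b : Ideal R) {n : ℕ} (ha : PP I (R ⧸ a) (n + 1)) (hb : PP I (R ⧸ b) (n + 1))
    (hab : PP I (R ⧸ (a ⊔ b)) n) : PP I (R ⧸ (a ⊓ b)) (n + 1) := by
  apply PP_glue I (Submodule.factor inf_le_left : R ⧸ (a ⊓ b) →ₗ[R] R ⧸ a)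
    (Submodule.factor inf_le_right : R ⧸ (a ⊓ b) →ₗ[R] R ⧸ b)
    (Submodule.factor le_sup_right : R ⧸ b →ₗ[R] R ⧸ (a ⊔ b)) _ _ _ _ ha hb hab
  · exact Submodule.factor_surjective _
  · exact Submodule.factor_surjective _
  · intro m
    obtain ⟨m, rfl⟩ := Submodule.Quotient.mk_surjective _ m
    rw [← Submodule.mkQ_apply, Submodule.factor_mk, Submodule.mkQ_apply,
      Submodule.Quotient.mk_eq_zero]
    constructor
    · intro h
      obtain ⟨y, hy, z, hz, rfl⟩ := Submodule.mem_sup.1 h
      refine ⟨Submodule.Quotient.mk y, ?_, ?_⟩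
      · rw [← Submodule.mkQ_apply, Submodule.factor_mk, Submodule.mkQ_apply,
          Submodule.Quotient.mk_eq_zero]
        exact hy
      · rw [← Submodule.mkQ_apply, Submodule.factor_mk, Submodule.mkQ_apply]
        change (Submodule.Quotient.mk y : R ⧸ b) = Submodule.Quotient.mk (y + z)
        rw [Submodule.Quotient.eq, sub_add_cancel_left]
        exact b.neg_mem hz
    · rintro ⟨y, hy1, hy2⟩
      obtain ⟨y, rfl⟩ := Submodule.Quotient.mk_surjective _ y
      rw [← Submodule.mkQ_apply, Submodule.factor_mk, Submodule.mkQ_apply,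
        Submodule.Quotient.mk_eq_zero] at hy1
      rw [← Submodule.mkQ_apply, Submodule.factor_mk, Submodule.mkQ_apply] at hy2
      change (Submodule.Quotient.mk y : R ⧸ b) = Submodule.Quotient.mk m at hy2
      rw [Submodule.Quotient.eq] at hy2
      have : m = y - (y - m) := by ring
      rw [this]
      exact Submodule.sub_mem _ (Submodule.mem_sup_left hy1) (Submodule.mem_sup_right hy2)
  · intro m
    obtain ⟨m, rfl⟩ := Submodule.Quotient.mk_surjective _ m
    rw [← Submodule.mkQ_apply, Submodule.factor_mk, Submodule.factor_mk, Submodule.mkQ_apply,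
      Submodule.mkQ_apply, Submodule.mkQ_apply, Submodule.Quotient.mk_eq_zero,
      Submodule.Quotient.mk_eq_zero, Submodule.Quotient.mk_eq_zero]
    exact fun h1 h2 => ⟨h1, h2⟩

variable [IsNoetherianRing R]

omit [IsNoetherianRing R] in
lemma supp_eq : Module.support R (ModuleCat.of R (R ⧸ I)) = PrimeSpectrum.zeroLocus I := by
  change Module.support R (R ⧸ I) = _
  rw [Module.support_eq_zeroLocus, Ideal.annihilator_quotient]

lemma PP_of_weaklyRegular [Module.Finite R M] (hM : I • (⊤ : Submodule R M) ≠ ⊤) (rs : List R)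
    (hmem : ∀ r ∈ rs, r ∈ I) (hreg : IsWeaklyRegular M rs) : PP I M rs.length := by
  have hreg' : IsRegular M rs := by
    refine ⟨hreg, ?_⟩
    intro h
    have h1 : Ideal.ofList rs ≤ I := by
      rw [Ideal.ofList, Ideal.span_le]
      exact hmem
    have h2 : Ideal.ofList rs • (⊤ : Submodule R M) ≤ I • (⊤ : Submodule R M) :=
      Submodule.smul_mono_left h1
    exact hM (top_le_iff.1 (h.le.trans h2))
  have i1 : Module.Finite R (ModuleCat.of R (R ⧸ I)) := inferInstanceAs (Module.Finite R (R ⧸ I))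
  have i2 : Module.Finite R (ModuleCat.of R M) := inferInstanceAs (Module.Finite R M)
  exact ModuleCat.subsingleton_ext_of_exists_isRegular I (ModuleCat.of R (R ⧸ I)) (supp_eq I).le
    (ModuleCat.of R M) hM.lt_top rs hmem hreg'

lemma exists_regular_of_PP [Module.Finite R M] (hM : I • (⊤ : Submodule R M) ≠ ⊤) (n : ℕ)
    (h : PP I M n) : ∃ rs : List R, rs.length = n ∧ (∀ r ∈ rs, r ∈ I) ∧ IsRegular M rs := by
  have i1 : Module.Finite R (ModuleCat.of R (R ⧸ I)) := inferInstanceAs (Module.Finite R (R ⧸ I))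
  have i2 : Module.Finite R (ModuleCat.of R M) := inferInstanceAs (Module.Finite R M)
  exact ModuleCat.exists_isRegular_of_exists_subsingleton_ext I n (ModuleCat.of R M) hM.lt_top
    (ModuleCat.of R (R ⧸ I)) (supp_eq I) h

end

end Pool.Agent.K4H18.BEI
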