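import Mathlib

/-!
Upper bounds for the lengths of regular sequences by dimensions of annihilators.
-/

set_option autoImplicit false

namespace Pool.Agent.K4H18.BEI

open RingTheory.Sequence Pointwise Polynomial

variable {S : Type*} [CommRing S]

/-- Uniform denominators: if every element of a finitely generated module is multiplied into `x N`
by some element outside the prime `𝔪`, then a single element does this for the whole module. -/
lemma uniform {N : Type*} [AddCommGroup N] [Module S N] [Module.Finite S N] {𝔪 : Ideal S}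
    [h𝔪 : 𝔪.IsPrime] {x : S} (h : ∀ z : N, ∃ s, s ∉ 𝔪 ∧ s • z ∈ x • (⊤ : Submodule S N)) :
    ∃ s, s ∉ 𝔪 ∧ ∀ z : N, s • z ∈ x • (⊤ : Submodule S N) := by
  classical
  obtain ⟨g, hg⟩ := Module.Finite.fg_top (R := S) (M := N)
  choose s hs1 hs2 using h
  refine ⟨∏ z ∈ g, s z, ?_, ?_⟩
  · intro hmem
    obtain ⟨z, -, hz⟩ := (Ideal.IsPrime.prod_mem_iff).1 hmem
    exact hs1 z hz
  · intro z
    have hz : z ∈ Submodule.span S (g : Set N) := by rw [hg]; trivial
    induction hz using Submodule.span_induction with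
    | mem y hy =>
      rw [← Finset.mul_prod_erase g s hy, mul_comm, mul_smul]
      exact Submodule.smul_mem _ _ (hs2 y)
    | zero => rw [smul_zero]; exact Submodule.zero_mem _
    | add a b _ _ ha hb => rw [smul_add]; exact Submodule.add_mem _ ha hb
    | smul a b _ hb => rw [smul_comm]; exact Submodule.smul_mem _ _ hb

/-- Nakayama with denominators. -/
lemma kill {N : Type*} [AddCommGroup N] [Module S N] [Module.Finite S N] {𝔪 : Ideal S}
    [h𝔪 : 𝔪.IsPrime] {x s : S} (hx : x ∈ 𝔪) (hs : s ∉ 𝔪)
    (h : ∀ z : N, s • z ∈ x • (⊤ : Submodule S N)) : ∃ t, t ∉ 𝔪 ∧ ∀ z : N, t • z = 0 := by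
  obtain ⟨p, hp1, -, hp2, hp3⟩ :=
    LinearMap.exists_monic_and_natDegree_eq_and_coeff_mem_pow_and_aeval_eq_zero
      S (LinearMap.lsmul S N s) (Ideal.span {x}) (by
        rintro _ ⟨z, rfl⟩
        rw [Submodule.ideal_span_singleton_smul]
        exact h z)
  refine ⟨p.eval s, ?_, ?_⟩
  · intro hmem
    have h1 : p.eval s - s ^ p.natDegree ∈ 𝔪 := by
      rw [Polynomial.eval_eq_sum_range, Finset.sum_range_succ, hp1.coeff_natDegree, one_mul,
        add_sub_cancel_right]
      apply Ideal.sum_mem
      intro i hi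
      apply Ideal.mul_mem_right
      have h2 := hp2 i
      have h3 : Ideal.span {x} ^ (p.natDegree - i) ≤ 𝔪 := by
        have h4 : p.natDegree - i ≠ 0 := by
          have := Finset.mem_range.1 hi
          omega
        refine (Ideal.pow_le_self h4).trans ?_
        rw [Ideal.span_singleton_le_iff_mem]
        exact hx
      exact h3 h2
    have h5 : s ^ p.natDegree ∈ 𝔪 := by
      have := 𝔪.sub_mem hmem h1
      rwa [sub_sub_cancel] at this
    exact hs (h𝔪.mem_of_pow_mem _ h5)
  · intro z
    have h1 : (Polynomial.aeval (LinearMap.lsmul S N s) p) z = 0 := by rw [hp3]; rfl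
    have h2 : (Polynomial.aeval (LinearMap.lsmul S N s) p) = LinearMap.lsmul S N (p.eval s) := by
      have h3 : LinearMap.lsmul S N s = algebraMap S (Module.End S N) s := rfl
      rw [h3, Polynomial.aeval_algebraMap_apply, Polynomial.coe_aeval_eq_eval]
      rfl
    rw [h2] at h1
    exact h1

variable [IsNoetherianRing S]

/-- Key step: an associated prime below `𝔪` gets strictly larger modulo a regular element. -/
lemma step {M : Type*} [AddCommGroup M] [Module S M] [Module.Finite S M] {𝔪 : Ideal S}
    [h𝔪 : 𝔪.IsPrime] {x : S} (hx : x ∈ 𝔪) (hreg : IsSMulRegular M x) {p : Ideal S} (hp : p.IsPrime)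
    (hpm : p ≤ 𝔪) (m : M) (hm : ∀ a, a ∈ p ↔ a • m = 0) :
    ∃ q : Ideal S, q.IsPrime ∧ q ≤ 𝔪 ∧ p < q ∧
      ∃ m' : QuotSMulTop x M, ∀ a, a ∈ q ↔ a • m' = 0 := by
  classical
  -- the submodule killed by `p`
  let N : Submodule S M :=
    { carrier := {z | ∀ a ∈ p, a • z = 0}
      add_mem' := fun {y z} hy hz a ha => by rw [smul_add, hy a ha, hz a ha, add_zero]
      zero_mem' := fun a _ => smul_zero a
      smul_mem' := fun c z hz a ha => by rw [smul_comm, hz a ha, smul_zero] }
  have hmN : m ∈ N := fun a ha => (hm a).1 ha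
  have key : ∃ z : M, z ∈ N ∧ ∀ s : S, s ∉ 𝔪 → s • z ∉ (x • (⊤ : Submodule S M) : Submodule S M) := by
    by_contra hcon
    push Not at hcon
    have h1 : ∀ z : N, ∃ s : S, s ∉ 𝔪 ∧ s • z ∈ (x • (⊤ : Submodule S N) : Submodule S N) := by
      rintro ⟨z, hz⟩
      obtain ⟨s, hs, hsz⟩ := hcon z hz
      refine ⟨s, hs, ?_⟩
      obtain ⟨m', -, hm'⟩ := (Submodule.mem_smul_pointwise_iff_exists _ _ _).1 hsz
      have hm'N : m' ∈ N := by
        intro a ha
        apply hreg
        change x • a • m' = x • (0 : M)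
        rw [smul_comm, hm', smul_comm, hz a ha, smul_zero, smul_zero]
      rw [Submodule.mem_smul_pointwise_iff_exists]
      exact ⟨⟨m', hm'N⟩, trivial, Subtype.ext hm'⟩
    obtain ⟨s, hs, hs2⟩ := uniform h1
    obtain ⟨t, ht, ht2⟩ := kill hx hs hs2
    have h2 := ht2 ⟨m, hmN⟩
    have h3 : t • m = 0 := congrArg Subtype.val h2
    exact ht (hpm ((hm t).2 h3))
  obtain ⟨z, hzN, hz⟩ := key
  let z' : QuotSMulTop x M := Submodule.Quotient.mk z
  have hz'0 : ∀ a : S, a • z' = 0 ↔ a • z ∈ (x • (⊤ : Submodule S M) : Submodule S M) := by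
    intro a
    rw [← Submodule.Quotient.mk_smul, Submodule.Quotient.mk_eq_zero]
  -- an associated prime inside `𝔪` containing the annihilator of `z'`
  have hann : ∃ q : Ideal S, q.IsPrime ∧ q ≤ 𝔪 ∧ (∀ a, a • z' = 0 → a ∈ q) ∧
      ∃ m' : QuotSMulTop x M, ∀ a, a ∈ q ↔ a • m' = 0 := by
    -- maximal annihilators of elements `b z'` with annihilator inside `𝔪`
    let 𝒮 : Set (Ideal S) := {I | I ≤ 𝔪 ∧ ∃ b : S, ∀ a, a ∈ I ↔ a • b • z' = 0}
    have hne : 𝒮.Nonempty := by
      refine ⟨Submodule.colon ⊥ {z'}, ?_, 1, ?_⟩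
      · intro a ha
        by_contra hcon
        rw [Submodule.mem_colon_singleton, Submodule.mem_bot, hz'0] at ha
        exact hz a hcon ha
      · intro a
        rw [Submodule.mem_colon_singleton, Submodule.mem_bot, one_smul]
    obtain ⟨q, hq, hmax⟩ := set_has_maximal_iff_noetherian.2 (inferInstance : IsNoetherian S S) 𝒮 hne
    obtain ⟨hqm, b, hb⟩ := hq
    refine ⟨q, ?_, hqm, ?_, b • z', hb⟩
    · constructor
      · intro htop
        apply h𝔪.ne_top
        rw [eq_top_iff, ← htop]
        exact hqm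
      · intro c d hcd
        by_contra hcon
        push Not at hcon
        obtain ⟨hc, hd⟩ := hcon
        -- annihilator of `d b z'` contains q and c
        let I1 : Ideal S := Submodule.colon ⊥ {d • b • z'}
        have hI1 : ∀ a, a ∈ I1 ↔ a • d • b • z' = 0 := by
          intro a
          rw [Submodule.mem_colon_singleton, Submodule.mem_bot]
        have hlt : q < I1 := by
          refine lt_of_le_of_ne ?_ ?_
          · intro a ha
            rw [hI1, smul_comm, (hb a).1 ha, smul_zero]
          · intro heq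
            apply hc
            rw [heq, hI1, smul_smul]
            exact (hb _).1 hcd
        -- so the annihilator of `d b z'` is not inside `𝔪`
        have hnot : ¬ I1 ≤ 𝔪 := by
          intro hle
          refine hmax I1 ⟨hle, d * b, ?_⟩ hlt
          intro a
          rw [hI1, mul_smul]
        obtain ⟨e, he1, he2⟩ := SetLike.not_le_iff_exists.1 hnot
        -- the annihilator of `e b z'` contains d
        let I2 : Ideal S := Submodule.colon ⊥ {e • b • z'}
        have hI2 : ∀ a, a ∈ I2 ↔ a • e • b • z' = 0 := by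
          intro a
          rw [Submodule.mem_colon_singleton, Submodule.mem_bot]
        have hle2 : I2 ≤ 𝔪 := by
          intro a ha
          by_contra hcon
          have h1 : (a * e) ∈ q := by
            rw [hb, mul_smul]
            exact (hI2 a).1 ha
          rcases h𝔪.mem_or_mem (hqm h1) with h2 | h2
          · exact hcon h2
          · exact he2 h2
        refine hmax I2 ⟨hle2, e * b, ?_⟩ ?_
        · intro a
          rw [hI2, mul_smul]
        · refine lt_of_le_of_ne ?_ ?_
          · intro a ha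
            rw [hI2, smul_comm, (hb a).1 ha, smul_zero]
          · intro heq
            apply hd
            rw [heq, hI2, smul_comm]
            exact (hI1 e).1 he1
    · intro a ha
      rw [hb, smul_comm, ha, smul_zero]
  obtain ⟨q, hq, hqm, hqz, m', hm'⟩ := hann
  refine ⟨q, hq, hqm, ?_, m', hm'⟩
  have hx0 : x ∉ p := by
    intro hxp
    have h1 : x • m = x • (0 : M) := by rw [(hm x).1 hxp, smul_zero]
    have h2 : m = 0 := hreg h1
    apply hp.ne_top
    rw [Ideal.eq_top_iff_one, hm, h2, smul_zero]
  refine lt_of_le_of_ne ?_ ?_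
  · intro a ha
    apply hqz
    rw [hz'0, hzN a ha]
    exact Submodule.zero_mem _
  · intro heq
    apply hx0
    rw [heq]
    apply hqz
    rw [hz'0]
    exact Submodule.smul_mem_pointwise_smul _ _ _ trivial

/-- A weakly regular sequence in `𝔪` on `M` gives a chain of primes starting at a given associated
prime below `𝔪`. -/
lemma chain {𝔪 : Ideal S} [h𝔪 : 𝔪.IsPrime] (n : ℕ) : ∀ {M : Type _} [AddCommGroup M] [Module S M]
    [Module.Finite S M] (rs : List S), rs.length = n → (∀ r ∈ rs, r ∈ 𝔪) → IsWeaklyRegular M rs →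
    ∀ (p : PrimeSpectrum S), p.asIdeal ≤ 𝔪 → (∃ m : M, ∀ a, a ∈ p.asIdeal ↔ a • m = 0) →
    ∃ l : LTSeries (PrimeSpectrum S), l.head = p ∧ l.length = n := by
  induction n with
  | zero =>
    intro M _ _ _ rs _ _ _ p _ _
    exact ⟨RelSeries.singleton _ p, rfl, rfl⟩
  | succ n ih =>
    intro M _ _ _ rs hlen hmem hreg p hpm ⟨m, hm⟩
    match rs with
    | [] => simp at hlen
    | x :: rs' =>
      rw [isWeaklyRegular_cons_iff] at hreg
      obtain ⟨q, hq, hqm, hpq, m', hm'⟩ := step (hmem x List.mem_cons_self) hreg.1 p.isPrime hpm m hm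
      obtain ⟨l, hl1, hl2⟩ := ih (M := QuotSMulTop x M) rs' (by simpa using hlen)
        (fun r hr => hmem r (List.mem_cons_of_mem _ hr)) hreg.2 ⟨q, hq⟩ hqm ⟨m', hm'⟩
      refine ⟨l.cons p ?_, ?_, ?_⟩
      · rw [hl1]
        exact hpq
      · simp
      · simp [hl2]

/-- **Upper bound.** Let `f` be an element of the `S`-module `M` whose annihilator lies in the prime
`𝔪` and contains `I`. Then weakly regular sequences in `𝔪` on `M` have length at most `dim S/I`. -/
theorem length_le {𝔪 : Ideal S} [h𝔪 : 𝔪.IsPrime] {M : Type*} [AddCommGroup M] [Module S M]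
    [Module.Finite S M] (rs : List S) (hmem : ∀ r ∈ rs, r ∈ 𝔪) (hreg : IsWeaklyRegular M rs)
    (f : M) (hf : ∀ a : S, a • f = 0 → a ∈ 𝔪) (I : Ideal S) (hI : ∀ a ∈ I, a • f = 0) :
    (rs.length : WithBot ℕ∞) ≤ ringKrullDim (S ⧸ I) := by
  -- use the length-one trick: an associated prime inside `𝔪`
  have hann : ∃ q : Ideal S, q.IsPrime ∧ q ≤ 𝔪 ∧ (∀ a, a • f = 0 → a ∈ q) ∧
      ∃ m' : M, ∀ a, a ∈ q ↔ a • m' = 0 := by
    let 𝒮 : Set (Ideal S) := {I | I ≤ 𝔪 ∧ ∃ b : S, ∀ a, a ∈ I ↔ a • b • f = 0}
    have hne : 𝒮.Nonempty := by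
      refine ⟨Submodule.colon ⊥ {f}, ?_, 1, ?_⟩
      · intro a ha
        rw [Submodule.mem_colon_singleton, Submodule.mem_bot] at ha
        exact hf a ha
      · intro a
        rw [Submodule.mem_colon_singleton, Submodule.mem_bot, one_smul]
    obtain ⟨q, hq, hmax⟩ := set_has_maximal_iff_noetherian.2 (inferInstance : IsNoetherian S S) 𝒮 hne
    obtain ⟨hqm, b, hb⟩ := hq
    refine ⟨q, ?_, hqm, ?_, b • f, hb⟩
    · constructor
      · intro htop
        apply h𝔪.ne_top
        rw [eq_top_iff, ← htop]
        exact hqm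
      · intro c d hcd
        by_contra hcon
        push Not at hcon
        obtain ⟨hc, hd⟩ := hcon
        let I1 : Ideal S := Submodule.colon ⊥ {d • b • f}
        have hI1 : ∀ a, a ∈ I1 ↔ a • d • b • f = 0 := by
          intro a
          rw [Submodule.mem_colon_singleton, Submodule.mem_bot]
        have hlt : q < I1 := by
          refine lt_of_le_of_ne ?_ ?_
          · intro a ha
            rw [hI1, smul_comm, (hb a).1 ha, smul_zero]
          · intro heq
            apply hc
            rw [heq, hI1, smul_smul]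
            exact (hb _).1 hcd
        have hnot : ¬ I1 ≤ 𝔪 := by
          intro hle
          refine hmax I1 ⟨hle, d * b, ?_⟩ hlt
          intro a
          rw [hI1, mul_smul]
        obtain ⟨e, he1, he2⟩ := SetLike.not_le_iff_exists.1 hnot
        let I2 : Ideal S := Submodule.colon ⊥ {e • b • f}
        have hI2 : ∀ a, a ∈ I2 ↔ a • e • b • f = 0 := by
          intro a
          rw [Submodule.mem_colon_singleton, Submodule.mem_bot]
        have hle2 : I2 ≤ 𝔪 := by
          intro a ha
          by_contra hcon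
          have h1 : (a * e) ∈ q := by
            rw [hb, mul_smul]
            exact (hI2 a).1 ha
          rcases h𝔪.mem_or_mem (hqm h1) with h2 | h2
          · exact hcon h2
          · exact he2 h2
        refine hmax I2 ⟨hle2, e * b, ?_⟩ ?_
        · intro a
          rw [hI2, mul_smul]
        · refine lt_of_le_of_ne ?_ ?_
          · intro a ha
            rw [hI2, smul_comm, (hb a).1 ha, smul_zero]
          · intro heq
            apply hd
            rw [heq, hI2, smul_comm]
            exact (hI1 e).1 he1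
    · intro a ha
      rw [hb, smul_comm, ha, smul_zero]
  obtain ⟨q, hq, hqm, hqf, m', hm'⟩ := hann
  obtain ⟨l, hl1, hl2⟩ := chain rs.length rs rfl hmem hreg ⟨q, hq⟩ hqm ⟨m', hm'⟩
  rw [ringKrullDim_quotient]
  let l' : LTSeries (PrimeSpectrum.zeroLocus (I : Set S)) :=
    { length := l.length
      toFun := fun i => ⟨l i, by
        rw [PrimeSpectrum.mem_zeroLocus]
        have h1 : l.head ≤ l i := LTSeries.head_le l i
        rw [hl1] at h1
        intro a ha
        exact h1 (hqf a (hI a ha))⟩
      step := fun i => l.step i }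
  have := Order.LTSeries.length_le_krullDim l'
  rw [← hl2]
  exact this

end Pool.Agent.K4H18.BEI
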