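import Pool.Agent.K4H18.BEI.Ext
import Pool.Agent.K4H18.BEI.Upper

set_option autoImplicit false

namespace Pool.Agent.K4H18.BEI

open RingTheory.Sequence

universe u

section

variable (K : Type u) [Field K] {V : Type}

/-- The binomial `x_i y_j - x_j y_i`. -/
noncomputable def mm (i j : V) : MvPolynomial (V ⊕ V) K :=
  MvPolynomial.X (Sum.inl i) * MvPolynomial.X (Sum.inr j) -
    MvPolynomial.X (Sum.inl j) * MvPolynomial.X (Sum.inr i)

/-- The binomial edge ideal of a graph. -/
noncomputable def JJ (H : SimpleGraph V) : Ideal (MvPolynomial (V ⊕ V) K) :=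
  Ideal.span {f | ∃ i j, H.Adj i j ∧ f = MvPolynomial.X (Sum.inl i) * MvPolynomial.X (Sum.inr j) -
    MvPolynomial.X (Sum.inl j) * MvPolynomial.X (Sum.inr i)}

/-- The ideal generated by the variables with index in `Z`. -/
noncomputable def ZI (Z : Set V) : Ideal (MvPolynomial (V ⊕ V) K) :=
  Ideal.span {f | ∃ z ∈ Z, f = MvPolynomial.X (Sum.inl z) ∨ f = MvPolynomial.X (Sum.inr z)}

lemma mm_mem {H : SimpleGraph V} {i j : V} (h : H.Adj i j) : mm K i j ∈ JJ K H :=
  Ideal.subset_span ⟨i, j, h, rfl⟩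

lemma mm_swap (i j : V) : mm K i j = - mm K j i := by
  unfold mm
  ring

lemma mm_self (i : V) : mm K i i = 0 := by
  unfold mm
  ring

lemma JJ_le {H : SimpleGraph V} {I : Ideal (MvPolynomial (V ⊕ V) K)}
    (h : ∀ i j, H.Adj i j → mm K i j ∈ I) : JJ K H ≤ I := by
  unfold JJ
  rw [Ideal.span_le]
  rintro _ ⟨i, j, hij, rfl⟩
  exact h i j hij

lemma ZI_le {Z : Set V} {I : Ideal (MvPolynomial (V ⊕ V) K)}
    (h : ∀ z ∈ Z, MvPolynomial.X (Sum.inl z) ∈ I ∧ MvPolynomial.X (Sum.inr z) ∈ I) :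
    ZI K Z ≤ I := by
  unfold ZI
  rw [Ideal.span_le]
  rintro _ ⟨z, hz, rfl | rfl⟩
  · exact (h z hz).1
  · exact (h z hz).2

lemma xl_mem {Z : Set V} {z : V} (hz : z ∈ Z) :
    (MvPolynomial.X (Sum.inl z) : MvPolynomial (V ⊕ V) K) ∈ ZI K Z :=
  Ideal.subset_span ⟨z, hz, Or.inl rfl⟩

lemma xr_mem {Z : Set V} {z : V} (hz : z ∈ Z) :
    (MvPolynomial.X (Sum.inr z) : MvPolynomial (V ⊕ V) K) ∈ ZI K Z :=
  Ideal.subset_span ⟨z, hz, Or.inr rfl⟩

lemma JJ_mono {H H' : SimpleGraph V} (h : H ≤ H') : JJ K H ≤ JJ K H' :=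
  JJ_le K fun _ _ hij => mm_mem K (h hij)

lemma ZI_mono {Z Z' : Set V} (h : Z ⊆ Z') : ZI K Z ≤ ZI K Z' :=
  ZI_le K fun _ hz => ⟨xl_mem K (h hz), xr_mem K (h hz)⟩

lemma mm_mem_ZI {Z : Set V} {i j : V} (h : i ∈ Z ∨ j ∈ Z) : mm K i j ∈ ZI K Z := by
  unfold mm
  rcases h with h | h
  · exact Ideal.sub_mem _ (Ideal.mul_mem_right _ _ (xl_mem K h))
      (Ideal.mul_mem_left _ _ (xr_mem K h))
  · exact Ideal.sub_mem _ (Ideal.mul_mem_left _ _ (xr_mem K h))
      (Ideal.mul_mem_right _ _ (xl_mem K h))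

/-- If `z` is adjacent to `a` and `b` then `x_z` and `y_z` multiply `x_a y_b - x_b y_a` into the
binomial edge ideal. -/
lemma mul_mm {H : SimpleGraph V} {z a b : V} (ha : H.Adj z a) (hb : H.Adj z b) :
    MvPolynomial.X (Sum.inl z) * mm K a b ∈ JJ K H ∧
    MvPolynomial.X (Sum.inr z) * mm K a b ∈ JJ K H := by
  constructor
  · have h : MvPolynomial.X (Sum.inl z) * mm K a b =
        MvPolynomial.X (Sum.inl a) * mm K z b - MvPolynomial.X (Sum.inl b) * mm K z a := by
      unfold mm
      ring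
    rw [h]
    exact Ideal.sub_mem _ (Ideal.mul_mem_left _ _ (mm_mem K hb))
      (Ideal.mul_mem_left _ _ (mm_mem K ha))
  · have h : MvPolynomial.X (Sum.inr z) * mm K a b =
        MvPolynomial.X (Sum.inr a) * mm K z b - MvPolynomial.X (Sum.inr b) * mm K z a := by
      unfold mm
      ring
    rw [h]
    exact Ideal.sub_mem _ (Ideal.mul_mem_left _ _ (mm_mem K hb))
      (Ideal.mul_mem_left _ _ (mm_mem K ha))

/-- Multiplying the ideal of variables in `Z`. -/
lemma ZI_mul_mm {H : SimpleGraph V} {a b : V} {Z : Set V} (h : ∀ z ∈ Z, H.Adj z a ∧ H.Adj z b)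
    {s : MvPolynomial (V ⊕ V) K} (hs : s ∈ ZI K Z) : s * mm K a b ∈ JJ K H := by
  unfold ZI at hs
  induction hs using Submodule.span_induction with
  | mem x hx =>
    obtain ⟨z, hz, rfl | rfl⟩ := hx
    · exact (mul_mm K (h z hz).1 (h z hz).2).1
    · exact (mul_mm K (h z hz).1 (h z hz).2).2
  | zero => rw [zero_mul]; exact Ideal.zero_mem _
  | add x y _ _ hx hy => rw [add_mul]; exact Ideal.add_mem _ hx hy
  | smul c x _ hx => rw [smul_eq_mul, mul_assoc]; exact Ideal.mul_mem_left _ _ hx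

open Classical in
/-- The substitution killing the variables with index in `Z`. -/
noncomputable def rho (Z : Set V) : MvPolynomial (V ⊕ V) K →ₐ[K] MvPolynomial (V ⊕ V) K :=
  MvPolynomial.aeval (Sum.elim
    (fun v => if v ∈ Z then 0 else MvPolynomial.X (Sum.inl v))
    (fun v => if v ∈ Z then 0 else MvPolynomial.X (Sum.inr v)))

lemma rho_inl_mem {Z : Set V} {v : V} (h : v ∈ Z) : rho K Z (MvPolynomial.X (Sum.inl v)) = 0 := by
  simp [rho, h]

lemma rho_inr_mem {Z : Set V} {v : V} (h : v ∈ Z) : rho K Z (MvPolynomial.X (Sum.inr v)) = 0 := by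
  simp [rho, h]

lemma rho_inl {Z : Set V} {v : V} (h : v ∉ Z) :
    rho K Z (MvPolynomial.X (Sum.inl v)) = MvPolynomial.X (Sum.inl v) := by
  simp [rho, h]

lemma rho_inr {Z : Set V} {v : V} (h : v ∉ Z) :
    rho K Z (MvPolynomial.X (Sum.inr v)) = MvPolynomial.X (Sum.inr v) := by
  simp [rho, h]

lemma sub_rho_mem (Z : Set V) (p : MvPolynomial (V ⊕ V) K) : p - rho K Z p ∈ ZI K Z := by
  induction p using MvPolynomial.induction_on with
  | C a =>
    have : rho K Z (MvPolynomial.C a) = MvPolynomial.C a := (rho K Z).commutes a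
    rw [this, sub_self]
    exact Ideal.zero_mem _
  | add p q hp hq =>
    rw [map_add]
    have : p + q - (rho K Z p + rho K Z q) = (p - rho K Z p) + (q - rho K Z q) := by ring
    rw [this]
    exact Ideal.add_mem _ hp hq
  | mul_X p v hp =>
    rw [map_mul]
    have hv : (MvPolynomial.X v : MvPolynomial (V ⊕ V) K) - rho K Z (MvPolynomial.X v) ∈
        ZI K Z := by
      rcases v with v | v
      · by_cases h : v ∈ Z
        · rw [rho_inl_mem K h, sub_zero]
          exact xl_mem K h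
        · rw [rho_inl K h, sub_self]
          exact Ideal.zero_mem _
      · by_cases h : v ∈ Z
        · rw [rho_inr_mem K h, sub_zero]
          exact xr_mem K h
        · rw [rho_inr K h, sub_self]
          exact Ideal.zero_mem _
    have : p * MvPolynomial.X v - rho K Z p * rho K Z (MvPolynomial.X v) =
        (p - rho K Z p) * MvPolynomial.X v +
          rho K Z p * (MvPolynomial.X v - rho K Z (MvPolynomial.X v)) := by ring
    rw [this]
    exact Ideal.add_mem _ (Ideal.mul_mem_right _ _ hp) (Ideal.mul_mem_left _ _ hv)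

lemma rho_ZI {Z : Set V} {p : MvPolynomial (V ⊕ V) K} (hp : p ∈ ZI K Z) : rho K Z p = 0 := by
  have h : ZI K Z ≤ RingHom.ker (rho K Z).toRingHom := by
    apply ZI_le
    intro z hz
    exact ⟨rho_inl_mem K hz, rho_inr_mem K hz⟩
  exact h hp

lemma mem_ZI_iff {Z : Set V} {p : MvPolynomial (V ⊕ V) K} : p ∈ ZI K Z ↔ rho K Z p = 0 := by
  refine ⟨rho_ZI K, fun h => ?_⟩
  have := sub_rho_mem K Z p
  rwa [h, sub_zero] at this

lemma rho_mm_mem {Z : Set V} {i j : V} (h : i ∈ Z ∨ j ∈ Z) : rho K Z (mm K i j) = 0 :=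
  rho_ZI K (mm_mem_ZI K h)

lemma rho_mm {Z : Set V} {i j : V} (hi : i ∉ Z) (hj : j ∉ Z) : rho K Z (mm K i j) = mm K i j := by
  unfold mm
  rw [map_sub, map_mul, map_mul, rho_inl K hi, rho_inl K hj, rho_inr K hi, rho_inr K hj]

lemma rho_JJ {H : SimpleGraph V} {Z : Set V} {p : MvPolynomial (V ⊕ V) K} (hp : p ∈ JJ K H) :
    rho K Z p ∈ JJ K H := by
  have h : JJ K H ≤ (JJ K H).comap (rho K Z).toRingHom := by
    apply JJ_le
    intro i j hij
    change rho K Z (mm K i j) ∈ JJ K H
    by_cases hi : i ∈ Z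
    · rw [rho_mm_mem K (Or.inl hi)]
      exact Ideal.zero_mem _
    · by_cases hj : j ∈ Z
      · rw [rho_mm_mem K (Or.inr hj)]
        exact Ideal.zero_mem _
      · rw [rho_mm K hi hj]
        exact mm_mem K hij
  exact h hp

lemma mm_ne_zero {i j : V} (h : i ≠ j) : mm K i j ≠ 0 := by
  classical
  intro h0
  have h1 := congrArg (MvPolynomial.eval (Sum.elim (fun v => if v = i then (1 : K) else 0)
    (fun v => if v = j then (1 : K) else 0))) h0
  simp [mm, h, h.symm] at h1

/-- Constant terms. -/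
lemma mem_irr_iff {p : MvPolynomial (V ⊕ V) K} :
    p ∈ irr K V ↔ MvPolynomial.constantCoeff p = 0 := by
  constructor
  · intro h
    have h1 : irr K V ≤ RingHom.ker (MvPolynomial.constantCoeff (σ := V ⊕ V) (R := K)) := by
      unfold irr
      rw [Ideal.span_le]
      rintro _ ⟨v, rfl⟩
      simp
    exact h1 h
  · intro h
    have h1 : p - MvPolynomial.C (MvPolynomial.constantCoeff p) ∈ irr K V := by
      clear h
      induction p using MvPolynomial.induction_on with
      | C a => simp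
      | add p q hp hq =>
        have : p + q - MvPolynomial.C (MvPolynomial.constantCoeff (p + q)) =
            (p - MvPolynomial.C (MvPolynomial.constantCoeff p)) +
            (q - MvPolynomial.C (MvPolynomial.constantCoeff q)) := by
          rw [map_add, map_add]
          ring
        rw [this]
        exact Ideal.add_mem _ hp hq
      | mul_X p v hp =>
        have : p * MvPolynomial.X v - MvPolynomial.C (MvPolynomial.constantCoeff
            (p * MvPolynomial.X v)) = p * MvPolynomial.X v := by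
          simp
        rw [this]
        exact Ideal.mul_mem_left _ _ (X_mem_irr K v)
    rwa [h, map_zero, sub_zero] at h1

instance irr_prime : (irr K V).IsPrime := by
  have h : irr K V = RingHom.ker (MvPolynomial.constantCoeff (σ := V ⊕ V) (R := K)) := by
    ext p
    rw [mem_irr_iff]
    rfl
  rw [h]
  exact RingHom.ker_isPrime _

lemma JJ_le_irr (H : SimpleGraph V) : JJ K H ≤ irr K V := by
  apply JJ_le
  intro i j _
  exact Ideal.sub_mem _ (Ideal.mul_mem_left _ _ (X_mem_irr K _))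
    (Ideal.mul_mem_left _ _ (X_mem_irr K _))

lemma ZI_le_irr (Z : Set V) : ZI K Z ≤ irr K V :=
  ZI_le K fun _ _ => ⟨X_mem_irr K _, X_mem_irr K _⟩

lemma smul_top_ne_top {I : Ideal (MvPolynomial (V ⊕ V) K)} (hI : I ≤ irr K V) :
    irr K V • (⊤ : Submodule (MvPolynomial (V ⊕ V) K) (MvPolynomial (V ⊕ V) K ⧸ I)) ≠ ⊤ := by
  intro h
  have h1 : irr K V • (⊤ : Submodule (MvPolynomial (V ⊕ V) K) (MvPolynomial (V ⊕ V) K ⧸ I)) ≤
      Submodule.map (Submodule.mkQ I) (irr K V) := by
    rw [Submodule.smul_le]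
    intro r hr m _
    obtain ⟨m, rfl⟩ := Submodule.Quotient.mk_surjective _ m
    refine ⟨r * m, Ideal.mul_mem_right _ _ hr, ?_⟩
    rfl
  have h2 : (Submodule.Quotient.mk 1 : MvPolynomial (V ⊕ V) K ⧸ I) ∈
      Submodule.map (Submodule.mkQ I) (irr K V) := h1 (by rw [h]; trivial)
  obtain ⟨r, hr, hr2⟩ := h2
  rw [Submodule.mkQ_apply, Submodule.Quotient.eq] at hr2
  apply (irr_prime K (V := V)).ne_top
  rw [Ideal.eq_top_iff_one]
  have := Ideal.sub_mem _ hr (hI hr2)
  rwa [sub_sub_cancel] at this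

/-- The ideals `cliqueIdeal`. -/
lemma clique_eq {n : ℕ} {F : Type} (e : Fin (n + 1) ⊕ F → V) (Z : Set V)
    (hZ : ∀ v, v ∈ Z ↔ v ∉ Set.range e) (H : SimpleGraph V)
    (h1 : ∀ i j, H.Adj i j → i ∈ Z ∨ j ∈ Z ∨
      ((∃ k, e (Sum.inl k) = i) ∧ ∃ k, e (Sum.inl k) = j))
    (h2 : ∀ k l : Fin (n + 1), k ≠ l → H.Adj (e (Sum.inl k)) (e (Sum.inl l))) :
    cliqueIdeal K e = ZI K Z ⊔ JJ K H := by
  apply le_antisymm
  · unfold cliqueIdeal
    rw [Ideal.span_le]
    rintro _ (⟨v, hv, rfl | rfl⟩ | ⟨i, j, rfl⟩)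
    · exact Ideal.mem_sup_left (xl_mem K ((hZ v).2 hv))
    · exact Ideal.mem_sup_left (xr_mem K ((hZ v).2 hv))
    · by_cases hij : i = j
      · subst hij
        change mm K _ _ ∈ _
        rw [mm_self]
        exact Ideal.zero_mem _
      · exact Ideal.mem_sup_right (mm_mem K (h2 i j hij))
  · apply sup_le
    · apply ZI_le
      intro z hz
      exact ⟨Ideal.subset_span (Or.inl ⟨z, (hZ z).1 hz, Or.inl rfl⟩),
        Ideal.subset_span (Or.inl ⟨z, (hZ z).1 hz, Or.inr rfl⟩)⟩
    · apply JJ_le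
      intro i j hij
      have h3 : ZI K Z ≤ cliqueIdeal K e := by
        apply ZI_le
        intro z hz
        exact ⟨Ideal.subset_span (Or.inl ⟨z, (hZ z).1 hz, Or.inl rfl⟩),
          Ideal.subset_span (Or.inl ⟨z, (hZ z).1 hz, Or.inr rfl⟩)⟩
      rcases h1 i j hij with h | h | ⟨⟨k, rfl⟩, ⟨l, rfl⟩⟩
      · exact h3 (mm_mem_ZI K (Or.inl h))
      · exact h3 (mm_mem_ZI K (Or.inr h))
      · exact Ideal.subset_span (Or.inr ⟨k, l, rfl⟩)

/-- Splitting off a dominating vertex. -/
lemma split_dom (H : SimpleGraph V) (v : V) (hv : ∀ w, w ≠ v → H.Adj v w) :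
    JJ K H = JJ K (⊤ : SimpleGraph V) ⊓ (ZI K {v} ⊔ JJ K H) := by
  apply le_antisymm
  · exact le_inf (JJ_mono K le_top) le_sup_right
  · rintro f ⟨hf1, hf2⟩
    have h1 : ∀ f ∈ JJ K (⊤ : SimpleGraph V), f - rho K {v} f ∈ JJ K H := by
      intro f hf
      unfold JJ at hf
      induction hf using Submodule.span_induction with
      | mem x hx =>
        obtain ⟨i, j, hij, rfl⟩ := hx
        change mm K i j - rho K {v} (mm K i j) ∈ _
        have hij' : i ≠ j := hij
        by_cases hi : i = v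
        · subst hi
          rw [rho_mm_mem K (Z := {i}) (Or.inl rfl), sub_zero]
          exact mm_mem K (hv j hij'.symm)
        · by_cases hj : j = v
          · subst hj
            rw [rho_mm_mem K (Z := {j}) (Or.inr rfl), sub_zero]
            exact mm_mem K (hv i hij').symm
          · rw [rho_mm K (Z := {v}) hi hj, sub_self]
            exact Ideal.zero_mem _
      | zero => rw [map_zero, sub_zero]; exact Ideal.zero_mem _
      | add x y _ _ hx hy =>
        rw [map_add]
        have : x + y - (rho K {v} x + rho K {v} y) =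
          (x - rho K {v} x) + (y - rho K {v} y) := by ring
        rw [this]
        exact Ideal.add_mem _ hx hy
      | smul c x hx' hx =>
        rw [smul_eq_mul, map_mul]
        have : c * x - rho K {v} c * rho K {v} x =
            (c - rho K {v} c) * x + rho K {v} c * (x - rho K {v} x) := by ring
        rw [this]
        refine Ideal.add_mem _ ?_ (Ideal.mul_mem_left _ _ hx)
        clear this hx
        -- (c - rho c) * x with x in the ideal of the complete graph
        have h3 : ∀ x ∈ JJ K (⊤ : SimpleGraph V), (c - rho K {v} c) * x ∈ JJ K H := by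
          intro x hx
          unfold JJ at hx
          induction hx using Submodule.span_induction with
          | mem x hx =>
            obtain ⟨i, j, hij, rfl⟩ := hx
            change (c - rho K {v} c) * mm K i j ∈ _
            have hij' : i ≠ j := hij
            by_cases hi : i = v
            · subst hi
              exact Ideal.mul_mem_left _ _ (mm_mem K (hv j hij'.symm))
            · by_cases hj : j = v
              · subst hj
                exact Ideal.mul_mem_left _ _ (mm_mem K (hv i hij').symm)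
              · apply ZI_mul_mm K (Z := {v}) _ (sub_rho_mem K {v} c)
                rintro z rfl
                exact ⟨hv i hi, hv j hj⟩
          | zero => rw [mul_zero]; exact Ideal.zero_mem _
          | add x y _ _ hx hy => rw [mul_add]; exact Ideal.add_mem _ hx hy
          | smul d x _ hx =>
            rw [smul_eq_mul, mul_left_comm]
            exact Ideal.mul_mem_left _ _ hx
        exact h3 x hx'
    have h2 : rho K {v} f ∈ JJ K H := by
      obtain ⟨y, hy, z, hz, rfl⟩ := Submodule.mem_sup.1 hf2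
      rw [map_add, rho_ZI K hy, zero_add]
      exact rho_JJ K hz
    have h3 := Ideal.add_mem _ (h1 f hf1) h2
    rwa [sub_add_cancel] at h3

/-- Splitting along an edge. -/
lemma split_edge (H H' : SimpleGraph V) (a b : V) (hab : a ≠ b) (hH' : ∀ i j, H'.Adj i j ↔
    (H.Adj i j ∨ (i = a ∧ j = b) ∨ (i = b ∧ j = a))) (Z₀ Z : Set V) (h0 : Z₀ ⊆ Z) (ha : a ∉ Z)
    (hb : b ∉ Z) (hH : ∀ i j, H.Adj i j → i ∈ Z ∨ j ∈ Z) (hz : ∀ z ∈ Z, H.Adj z a ∧ H.Adj z b) :
    ZI K Z₀ ⊔ JJ K H = (ZI K Z₀ ⊔ JJ K H') ⊓ (ZI K Z ⊔ JJ K H) := by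
  have hle : H ≤ H' := fun i j hij => (hH' i j).2 (Or.inl hij)
  have hJZ : JJ K H ≤ ZI K Z := JJ_le K fun i j hij => mm_mem_ZI K (hH i j hij)
  apply le_antisymm
  · exact le_inf (sup_le_sup le_rfl (JJ_mono K hle)) (sup_le_sup (ZI_mono K h0) le_rfl)
  · rintro f ⟨hf1, hf2⟩
    have hf2' : f ∈ ZI K Z := (sup_le le_rfl hJZ) hf2
    have h1 : ZI K Z₀ ⊔ JJ K H' ≤ (ZI K Z₀ ⊔ JJ K H) ⊔ Ideal.span {mm K a b} := by
      apply sup_le
      · exact le_sup_left.trans le_sup_left
      · apply JJ_le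
        intro i j hij
        rcases (hH' i j).1 hij with h | ⟨rfl, rfl⟩ | ⟨rfl, rfl⟩
        · exact Ideal.mem_sup_left (Ideal.mem_sup_right (mm_mem K h))
        · exact Ideal.mem_sup_right (Ideal.mem_span_singleton_self _)
        · rw [mm_swap K i j]
          exact Ideal.mem_sup_right (Submodule.neg_mem _ (Ideal.mem_span_singleton_self _))
    obtain ⟨g, hg, y, hy, rfl⟩ := Submodule.mem_sup.1 (h1 hf1)
    obtain ⟨c, rfl⟩ := Ideal.mem_span_singleton'.1 hy
    refine Ideal.add_mem _ hg ?_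
    have hg' : g ∈ ZI K Z := (sup_le (ZI_mono K h0) hJZ) hg
    have h2 : c * mm K a b ∈ ZI K Z := by
      have := Ideal.sub_mem _ hf2' hg'
      rwa [add_sub_cancel_left] at this
    have h3 : c ∈ ZI K Z := by
      rw [mem_ZI_iff] at h2 ⊢
      rw [map_mul, rho_mm K ha hb] at h2
      exact (mul_eq_zero.1 h2).resolve_right (mm_ne_zero K hab)
    exact Ideal.mem_sup_right (ZI_mul_mm K hz h3)

end

end Pool.Agent.K4H18.BEI
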